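import Pool.Agent.TH958.BV.Defs
import Pool.Agent.TH345.ET.X
import Pool.Agent.TH339.MP.U3

/-!
# L-functions of varieties with all Euler factors tempered
-/

set_option autoImplicit false

namespace Pool.Agent.R409.EV

open NumberField IsDedekindDomain Filter Topology MeasureTheory
open Pool.Agent.TH958.BV (IsFrobenius edgePoint angle)
open Pool.Agent.TH339.MP (PP FF bb norm_bb hasSum_all lv nm bl ap)

variable {K : Type} [Field K] [NumberField K] {n : ℕ}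

/-- `α_{v,1}, …, α_{v,N}` are the parameters of the Euler factors of `L(H^i(X), s)` at all primes `v`
of `K`: for almost all `v` these are the eigenvalues of the geometric Frobenius on `H^i(X)`, and for all
`v` they are numbers of absolute value at most `q_v^{i/2}`.  (At a bad prime these are the eigenvalues
of Frobenius on the inertia invariants of `H^i(X)`, completed by zeros.) -/
def IsParameter (X : Set (MvPolynomial (Fin n) (𝓞 K))) (d i : ℕ) {N : ℕ}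
    (α : HeightOneSpectrum (𝓞 K) → Fin N → ℂ) : Prop :=
  (∀ᶠ v in cofinite, IsFrobenius X d i v (α v)) ∧
    ∀ v j, ‖α v j‖ ≤ (Ideal.absNorm v.asIdeal : ℝ) ^ ((i : ℝ) / 2)

/-- `L(H^i(X), s)`, the Euler product over all primes `v` of `K`. -/
noncomputable def LProd {N : ℕ} (α : HeightOneSpectrum (𝓞 K) → Fin N → ℂ) (s : ℂ) : ℂ :=
  ∏' v : HeightOneSpectrum (𝓞 K), ∏ j, (1 - α v j * (Ideal.absNorm v.asIdeal : ℂ) ^ (-s))⁻¹

/-- `log L(H^i(X), s)`, the sum of the principal values of the logarithms of the Euler factors. -/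
noncomputable def logL {N : ℕ} (α : HeightOneSpectrum (𝓞 K) → Fin N → ℂ) (s : ℂ) : ℂ :=
  ∑' v : HeightOneSpectrum (𝓞 K), ∑ j,
    -Complex.log (1 - α v j * (Ideal.absNorm v.asIdeal : ℂ) ^ (-s))

/-- the normalised parameters -/
noncomputable def nal (i : ℕ) {N : ℕ} (α : HeightOneSpectrum (𝓞 K) → Fin N → ℂ)
    (v : HeightOneSpectrum (𝓞 K)) (j : Fin N) : ℂ := α v j * (nm v : ℂ) ^ (-((i : ℂ) / 2))

variable {X : Set (MvPolynomial (Fin n) (𝓞 K))} {d i N : ℕ}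
  {α : HeightOneSpectrum (𝓞 K) → Fin N → ℂ}

lemma norm_nal (h : ∀ v j, ‖α v j‖ ≤ (Ideal.absNorm v.asIdeal : ℝ) ^ ((i : ℝ) / 2))
    (v : HeightOneSpectrum (𝓞 K)) (j : Fin N) : ‖nal i α v j‖ ≤ 1 := by
  have h2 := Pool.Agent.TH339.MP.two_le_nm v
  have hq : (0 : ℝ) < nm v := by exact_mod_cast (by omega : 0 < nm v)
  unfold nal
  rw [norm_mul, Complex.norm_natCast_cpow_of_pos (by omega)]
  have h1 : (-((i : ℂ) / 2)).re = -((i : ℝ) / 2) := by
    rw [Complex.neg_re]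
    congr 1
    have h3 : ((i : ℂ) / 2) = (((i : ℝ) / 2 : ℝ) : ℂ) := by push_cast; rfl
    rw [h3, Complex.ofReal_re]
  rw [h1]
  calc ‖α v j‖ * (nm v : ℝ) ^ (-((i : ℝ) / 2)) ≤
      (nm v : ℝ) ^ ((i : ℝ) / 2) * (nm v : ℝ) ^ (-((i : ℝ) / 2)) :=
        mul_le_mul_of_nonneg_right (h v j) (by positivity)
    _ = 1 := by
        rw [← Real.rpow_add hq]
        simp

lemma nal_cpow (v : HeightOneSpectrum (𝓞 K)) (j : Fin N) (s : ℂ) :
    nal i α v j * (nm v : ℂ) ^ (-s) =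
      α v j * (Ideal.absNorm v.asIdeal : ℂ) ^ (-(s + (i : ℂ) / 2)) := by
  have h2 := Pool.Agent.TH339.MP.two_le_nm v
  have hq : (nm v : ℂ) ≠ 0 := Nat.cast_ne_zero.2 (by omega)
  unfold nal
  rw [mul_assoc, ← Complex.cpow_add _ _ hq]
  change _ = α v j * (nm v : ℂ) ^ (-(s + (i : ℂ) / 2))
  congr 2
  ring

/-- the coefficients -/
noncomputable def bT (i : ℕ) {N : ℕ} (α : HeightOneSpectrum (𝓞 K) → Fin N → ℂ) : PP → ℂ :=
  bb (nal i α)

lemma bT_bound (h : ∀ v j, ‖α v j‖ ≤ (Ideal.absNorm v.asIdeal : ℝ) ^ ((i : ℝ) / 2)) (x : PP) :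
    ‖bT i α x‖ ≤ ((Module.finrank ℚ K : ℝ) * N) / (x.2 + 1 : ℕ) :=
  norm_bb (norm_nal h) x

theorem hasSum_logL (h : ∀ v j, ‖α v j‖ ≤ (Ideal.absNorm v.asIdeal : ℝ) ^ ((i : ℝ) / 2)) {s : ℂ}
    (hs : 1 < s.re) : HasSum (fun v : HeightOneSpectrum (𝓞 K) => ∑ j,
      -Complex.log (1 - α v j * (Ideal.absNorm v.asIdeal : ℂ) ^ (-(s + (i : ℂ) / 2))))
      (FF (bT i α) s) := by
  have h1 := hasSum_all (norm_nal h) hs
  have h2 : (fun v => lv (nal i α) v s) = fun v : HeightOneSpectrum (𝓞 K) => ∑ j,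
      -Complex.log (1 - α v j * (Ideal.absNorm v.asIdeal : ℂ) ^ (-(s + (i : ℂ) / 2))) := by
    funext v
    unfold Pool.Agent.TH339.MP.lv
    refine Finset.sum_congr rfl fun j _ => ?_
    rw [nal_cpow]
  rwa [h2] at h1

theorem logL_eq (h : ∀ v j, ‖α v j‖ ≤ (Ideal.absNorm v.asIdeal : ℝ) ^ ((i : ℝ) / 2)) {s : ℂ}
    (hs : 1 < s.re) : logL α (s + (i : ℂ) / 2) = FF (bT i α) s :=
  (hasSum_logL h hs).tsum_eq

theorem LProd_eq (h : ∀ v j, ‖α v j‖ ≤ (Ideal.absNorm v.asIdeal : ℝ) ^ ((i : ℝ) / 2)) {s : ℂ}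
    (hs : 1 < s.re) : LProd α (s + (i : ℂ) / 2) = Complex.exp (FF (bT i α) s) := by
  have h1 := Pool.Agent.TH339.MP.hasProd_L (norm_nal h) hs
  have h2 : (fun v : HeightOneSpectrum (𝓞 K) => ∏ j, (1 - nal i α v j * (nm v : ℂ) ^ (-s))⁻¹) =
      fun v : HeightOneSpectrum (𝓞 K) => ∏ j, (1 - α v j *
        (Ideal.absNorm v.asIdeal : ℂ) ^ (-(s + (i : ℂ) / 2)))⁻¹ := by
    funext v
    refine Finset.prod_congr rfl fun j _ => ?_
    rw [nal_cpow]
  rw [h2] at h1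
  exact h1.tprod_eq

lemma re_sub {s : ℂ} (hs : (i : ℝ) / 2 + 1 < s.re) : 1 < (s - (i : ℂ) / 2).re := by
  have h3 : ((i : ℂ) / 2) = (((i : ℝ) / 2 : ℝ) : ℂ) := by push_cast; rfl
  rw [Complex.sub_re, h3, Complex.ofReal_re]
  linarith

lemma edge_sub (τ : ℝ) : edgePoint i τ - (i : ℂ) / 2 = 1 + τ * Complex.I := by
  unfold Pool.Agent.TH958.BV.edgePoint
  push_cast
  ring

/-- the limits in angles -/
theorem logL_angle (h : ∀ v j, ‖α v j‖ ≤ (Ideal.absNorm v.asIdeal : ℝ) ^ ((i : ℝ) / 2)) {τ : ℝ}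
    (hτ : τ ∉ Pool.Agent.W350.Edge.divSet (ap (bT i α))) (C : ℝ) :
    Tendsto (logL α) (𝓝[angle i τ C] (edgePoint i τ)) (𝓝 (bl (bT i α) τ)) := by
  have h5 := Pool.Agent.TH339.MP.bl_angle (bT_bound h) hτ C
  have h6 : Tendsto (fun s : ℂ => s - edgePoint i τ) (𝓝[angle i τ C] (edgePoint i τ))
      (𝓝[{z : ℂ | 0 < z.re ∧ ‖z‖ ≤ C * z.re}] 0) := by
    rw [tendsto_nhdsWithin_iff]
    constructor
    · have h7 : Tendsto (fun s : ℂ => s - edgePoint i τ) (𝓝 (edgePoint i τ))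
          (𝓝 (edgePoint i τ - edgePoint i τ)) :=
        (continuous_id.sub continuous_const).tendsto _
      rw [sub_self] at h7
      exact h7.mono_left nhdsWithin_le_nhds
    · filter_upwards [self_mem_nhdsWithin] with s hs
      have hre : (s - edgePoint i τ).re = s.re - ((i : ℝ) / 2 + 1) := by
        unfold Pool.Agent.TH958.BV.edgePoint
        simp
      refine ⟨?_, ?_⟩
      · rw [hre]
        linarith [hs.1]
      · rw [hre]
        exact hs.2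
  refine (h5.comp h6).congr' ?_
  filter_upwards [self_mem_nhdsWithin] with s hs
  have h7 := logL_eq h (re_sub hs.1)
  rw [sub_add_cancel] at h7
  rw [h7]
  simp only [Function.comp_apply]
  congr 1
  rw [← edge_sub (i := i)]
  ring

theorem LProd_exp (h : ∀ v j, ‖α v j‖ ≤ (Ideal.absNorm v.asIdeal : ℝ) ^ ((i : ℝ) / 2)) {s : ℂ}
    (hs : (i : ℝ) / 2 + 1 < s.re) : LProd α s = Complex.exp (logL α s) := by
  have h1 := LProd_eq h (re_sub hs)
  have h2 := logL_eq h (re_sub hs)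
  rw [sub_add_cancel] at h1 h2
  rw [h1, h2]

/-- the value at distance `h` from the edge -/
lemma logL_at (h : ∀ v j, ‖α v j‖ ≤ (Ideal.absNorm v.asIdeal : ℝ) ^ ((i : ℝ) / 2)) {ε : ℝ}
    (hε : 0 < ε) (t : ℝ) :
    logL α (edgePoint i t + (ε : ℂ)) = FF (bT i α) (((1 + ε : ℝ) : ℂ) + t * Complex.I) := by
  have h1 : (i : ℝ) / 2 + 1 < (edgePoint i t + (ε : ℂ)).re := by
    unfold Pool.Agent.TH958.BV.edgePoint
    simp [hε]
  have h2 := logL_eq h (re_sub h1)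
  rw [sub_add_cancel] at h2
  rw [h2]
  congr 1
  have h3 := edge_sub (i := i) t
  have h4 : edgePoint i t + (ε : ℂ) - (i : ℂ) / 2 = (edgePoint i t - (i : ℂ) / 2) + ε := by ring
  rw [h4, h3]
  push_cast
  ring

end Pool.Agent.R409.EV
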