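import Pool.Agent.R409.EV.Bdry

/-!
# Algebraic independence of boundary values, over countable fields
-/

set_option autoImplicit false

namespace Pool.Agent.R409.EV

open Finset Filter Topology MeasureTheory
open Pool.Agent.TH339.MP (PP FF bl ap tm M_nonneg summable_tm radial_x ae_notMem volume_diff_ne
  volume_divSet)
open Pool.Agent.TH345.ET (ep tendsto_ep)
open Pool.Agent.W350.Edge (divSet)

section
variable {J : Type} {b : J → PP → ℂ} {M : J → ℝ}

/-- the boundary value -/
noncomputable def bval (b : J → PP → ℂ) (D : J → MvPolynomial (Option Nat.Primes) ℂ) (τ : ℝ)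
    (j : J) : ℂ := (MvPolynomial.aeval (xs (ep τ)) (D j))⁻¹ * Complex.exp (bl (b j) τ)

lemma key_ne [Countable J] (hb : ∀ j x, ‖b j x‖ ≤ M j / (x.2 + 1 : ℕ))
    (hind : ∀ e : J →₀ ℤ, e ≠ 0 →
      {p : Nat.Primes | ∃ k : ℕ, (e.sum fun j m => (m : ℂ) * b j (p, k)) ≠ 0}.Infinite)
    {D : J → MvPolynomial (Option Nat.Primes) ℂ} (hD : ∀ j, D j ≠ 0)
    {P : MvPolynomial (J ⊕ Option Nat.Primes) ℂ} (hP : P ≠ 0) :
    ∀ᵐ τ : ℝ, MvPolynomial.aeval (Sum.elim (bval b D τ) (xs (ep τ))) P ≠ 0 := by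
  classical
  by_contra hcon
  have hZ0 : volume {τ : ℝ | ¬ MvPolynomial.aeval (Sum.elim (bval b D τ) (xs (ep τ))) P ≠ 0} ≠ 0 :=
    hcon
  set T : Set ℝ := (⋃ j, divSet (ap (b j))) ∪
    ⋃ j, {τ : ℝ | ¬ MvPolynomial.aeval (xs (ep τ)) (D j) ≠ 0} with hT
  have hT0 : volume T = 0 := by
    refine measure_union_null ((measure_iUnion_null_iff).2 fun j => volume_divSet (hb j))
      ((measure_iUnion_null_iff).2 fun j => ?_)
    exact ae_ne (hD j)
  have hZ := volume_diff_ne hZ0 hT0
  set Z := {τ : ℝ | ¬ MvPolynomial.aeval (Sum.elim (bval b D τ) (xs (ep τ))) P ≠ 0} \ T with hZdef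
  set P2 := MvPolynomial.sumRingEquiv ℂ J (Option Nat.Primes) P with hP2
  have hP20 : P2 ≠ 0 := (map_ne_zero_iff _ (RingEquiv.injective _)).2 hP
  set S := P2.support with hS
  obtain ⟨N, hN⟩ : ∃ N : ℕ, ∀ m ∈ S, ∀ j, m j ≤ N := by
    refine ⟨S.sup fun m => m.support.sup m, fun m hm j => ?_⟩
    have h2 := le_sup (f := fun m : J →₀ ℕ => m.support.sup m) hm
    refine le_trans ?_ h2
    by_cases hj : j ∈ m.support
    · exact le_sup (f := m) hj
    · rw [Finsupp.notMem_support_iff.1 hj]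
      exact Nat.zero_le _
  set J0 : Finset J := S.biUnion fun m => m.support with hJ0
  set R : (J →₀ ℕ) → MvPolynomial (Option Nat.Primes) ℂ := fun m =>
    MvPolynomial.coeff m P2 * ∏ j ∈ J0, D j ^ (N - m j) with hR
  have hR0 : ∀ m ∈ S, R m = 0 := by
    refine rel_zero hb hind S R hZ (fun τ hτ m _ j _ hdiv => ?_) (fun τ hτ => ?_)
    · exact hτ.2 (Or.inl (Set.mem_iUnion.2 ⟨j, hdiv⟩))
    · have hd : ∀ j, MvPolynomial.aeval (xs (ep τ)) (D j) ≠ 0 := by
        intro j
        by_contra h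
        exact hτ.2 (Or.inr (Set.mem_iUnion.2 ⟨j, not_not.2 h⟩))
      have h0 : MvPolynomial.aeval (Sum.elim (bval b D τ) (xs (ep τ))) P = 0 := not_not.1 hτ.1
      rw [eval_sum] at h0
      have h1 : ∀ m ∈ S, MvPolynomial.aeval (xs (ep τ)) (R m) *
          m.prod (fun j k => Complex.exp (bl (b j) τ) ^ k) =
          (∏ j ∈ J0, MvPolynomial.aeval (xs (ep τ)) (D j) ^ N) *
            (MvPolynomial.aeval (xs (ep τ)) (MvPolynomial.coeff m P2) *
              m.prod fun j k => bval b D τ j ^ k) := by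
        intro m hm
        have hsub : m.support ⊆ J0 := by
          intro j hj
          exact mem_biUnion.2 ⟨m, hm, hj⟩
        rw [Finsupp.prod_of_support_subset _ hsub _ (fun j _ => pow_zero _),
          Finsupp.prod_of_support_subset _ hsub _ (fun j _ => pow_zero _)]
        simp only [hR, map_mul, map_prod, map_pow]
        rw [mul_assoc, ← prod_mul_distrib, mul_left_comm, ← prod_mul_distrib]
        congr 1
        refine prod_congr rfl fun j _ => ?_
        unfold bval
        have h2 := hN m hm j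
        rw [mul_pow, ← mul_assoc]
        congr 1
        rw [inv_pow, ← div_eq_mul_inv, eq_div_iff (pow_ne_zero _ (hd j)), ← pow_add,
          Nat.sub_add_cancel h2]
      rw [sum_congr rfl h1, ← mul_sum, h0, mul_zero]
  obtain ⟨m, hm⟩ : S.Nonempty := by
    rw [hS, MvPolynomial.support_nonempty]
    exact hP20
  have h1 := hR0 m hm
  simp only [hR] at h1
  rcases mul_eq_zero.1 h1 with h2 | h2
  · exact MvPolynomial.mem_support_iff.1 hm h2
  · obtain ⟨j, _, hj⟩ := prod_eq_zero_iff.1 h2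
    have h4 : N - m j ≠ 0 := by
      intro h3
      rw [h3, pow_zero] at hj
      exact one_ne_zero hj
    exact hD j ((pow_eq_zero_iff h4).1 hj)

/-- **Algebraic independence.** -/
theorem alg_ind [Countable J] (hb : ∀ j x, ‖b j x‖ ≤ M j / (x.2 + 1 : ℕ))
    (hind : ∀ e : J →₀ ℤ, e ≠ 0 →
      {p : Nat.Primes | ∃ k : ℕ, (e.sum fun j m => (m : ℂ) * b j (p, k)) ≠ 0}.Infinite)
    {D : J → MvPolynomial (Option Nat.Primes) ℂ} (hD : ∀ j, D j ≠ 0) (k : Subfield ℂ)
    (hk : (k : Set ℂ).Countable) :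
    ∀ᵐ τ : ℝ, AlgebraicIndependent k (Sum.elim (bval b D τ) (xs (ep τ))) := by
  have : Countable k := hk.to_subtype
  have hc1 : Countable (MvPolynomial (J ⊕ Option Nat.Primes) k) := by
    rw [← Cardinal.mk_le_aleph0_iff]
    refine (MvPolynomial.cardinalMk_le_max_lift).trans ?_
    refine max_le (max_le ?_ ?_) le_rfl
    · rw [Cardinal.lift_le_aleph0]
      exact Cardinal.mk_le_aleph0_iff.2 inferInstance
    · rw [Cardinal.lift_le_aleph0]
      exact Cardinal.mk_le_aleph0_iff.2 inferInstance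
  have hall : ∀ᵐ τ : ℝ, ∀ P : MvPolynomial (J ⊕ Option Nat.Primes) k, P ≠ 0 →
      MvPolynomial.aeval (Sum.elim (bval b D τ) (xs (ep τ))) P ≠ 0 := by
    rw [ae_all_iff]
    intro P
    by_cases hP : P = 0
    · exact Eventually.of_forall fun τ h => absurd hP h
    · have hP' : MvPolynomial.map (algebraMap k ℂ) P ≠ 0 := by
        rw [Ne, ← map_zero (MvPolynomial.map (algebraMap k ℂ))]
        exact fun h => hP (MvPolynomial.map_injective _ (algebraMap k ℂ).injective h)
      filter_upwards [key_ne hb hind hD hP'] with τ hτ _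
      rwa [MvPolynomial.aeval_map_algebraMap] at hτ
  filter_upwards [hall] with τ hτ
  rw [algebraicIndependent_iff]
  intro P hP
  by_contra h
  exact hτ P h hP

end

end Pool.Agent.R409.EV
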