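import Pool.Agent.TH339.MP.X5

/-!
# Local uniqueness of boundary values for sums of several Euler products
-/

set_option autoImplicit false

namespace Pool.Agent.R409.EV

open Complex Set Filter Topology MeasureTheory
open Pool.Agent.TH339.MP

lemma rpow_sum_le {ι : Type*} (S : Finset ι) (L : ι → ℝ) (hL : ∀ i ∈ S, 0 ≤ L i) {q : ℝ} (hq : 0 < q)
    (hq1 : q ≤ 1) : (∑ i ∈ S, L i) ^ q ≤ ∑ i ∈ S, L i ^ q := by
  classical
  induction S using Finset.induction_on with
  | empty => simp [Real.zero_rpow hq.ne']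
  | insert a S ha ih =>
    rw [Finset.sum_insert ha, Finset.sum_insert ha]
    refine (Real.rpow_add_le_add_rpow (hL a (Finset.mem_insert_self _ _))
      (Finset.sum_nonneg fun i hi => hL i (Finset.mem_insert_of_mem hi)) hq.le hq1).trans ?_
    exact add_le_add le_rfl (ih fun i hi => hL i (Finset.mem_insert_of_mem hi))

section
variable {ι : Type*} {b : ι → PP → ℂ} {M : ℝ}

/-- **Local uniqueness of boundary values** for `∑ c_i · exp (FF b_i)`. -/
theorem unique_sum (S : Finset ι) (hM : 0 ≤ M) (hb : ∀ i ∈ S, ∀ x, ‖b i x‖ ≤ M / (x.2 + 1 : ℕ))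
    {U : Set ℂ} (hU : IsOpen U)
    (hUc : IsPreconnected (U ∩ {s : ℂ | 1 < s.re})) {c : ι → ℂ → ℂ}
    (hc : ∀ i ∈ S, DifferentiableOn ℂ (c i) U) {Z : Set ℝ} (hZ : volume Z ≠ 0)
    (hZU : ∀ τ ∈ Z, (1 + τ * I : ℂ) ∈ U)
    (hlim : ∀ τ ∈ Z, Tendsto (fun x : ℝ => ∑ i ∈ S, c i (1 + τ * I + x) *
      Complex.exp (FF (b i) (1 + τ * I + x))) (𝓝[>] 0) (𝓝 0)) :
    ∀ s ∈ U, 1 < s.re → ∑ i ∈ S, c i s * Complex.exp (FF (b i) s) = 0 := by
  classical
  obtain ⟨τ₁, hτ₁, hdens⟩ := exists_mem_forall_mem_nhdsWithin_pos_measure hZ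
  set w : ℂ := 1 + τ₁ * I with hw
  obtain ⟨d, hd, hdU⟩ := Metric.isOpen_iff.1 hU w (hZU τ₁ hτ₁)
  -- bounds for the coefficients
  have hcb : IsCompact (Metric.closedBall w (d / 2)) := isCompact_closedBall _ _
  have hcbU : Metric.closedBall w (d / 2) ⊆ U :=
    (Metric.closedBall_subset_ball (by linarith)).trans hdU
  have hBi : ∃ B : ℝ, 1 ≤ B ∧ ∀ i ∈ S, ∀ z ∈ Metric.closedBall w (d / 2), ‖c i z‖ ≤ B := by
    have h1 : ∀ i ∈ S, ∃ B1 : ℝ, ∀ z ∈ Metric.closedBall w (d / 2), ‖c i z‖ ≤ B1 := fun i hi =>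
      hcb.exists_bound_of_continuousOn ((hc i hi).continuousOn.mono hcbU)
    choose! B1 hB1 using h1
    refine ⟨1 + ∑ i ∈ S, |B1 i|, ?_, fun i hi z hz => ?_⟩
    · have : 0 ≤ ∑ i ∈ S, |B1 i| := Finset.sum_nonneg fun i _ => abs_nonneg _
      linarith
    · have h2 : |B1 i| ≤ ∑ i ∈ S, |B1 i| :=
        Finset.single_le_sum (f := fun i => |B1 i|) (fun i _ => abs_nonneg _) hi
      have h3 := hB1 i hi z hz
      have h4 := le_abs_self (B1 i)
      linarith
  obtain ⟨B, hBone, hB⟩ := hBi
  set r : ℝ := min (d / 4) (1 / 2) with hr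
  have hr0 : 0 < r := by positivity
  have hrd : r ≤ d / 4 := min_le_left _ _
  have hr2 : r ≤ 1 / 2 := min_le_right _ _
  set ρ : ℝ := r / 2 with hρ
  have hρ0 : 0 < ρ := by positivity
  have hρr : ρ < r := by rw [hρ]; linarith
  have hle : -ρ ≤ ρ := by linarith
  have hin : ∀ z ∈ rect r, w + z ∈ Metric.closedBall w (d / 2) := by
    intro z hz
    rw [Metric.mem_closedBall, dist_eq_norm, add_sub_cancel_left]
    have h1 := Complex.norm_le_abs_re_add_abs_im z
    have h2 : |z.re| ≤ r := by rw [abs_of_pos hz.1]; exact hz.2.1.le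
    linarith [hz.2.2]
  have hre : ∀ z ∈ rect r, 1 < (w + z).re := by
    intro z hz
    simp only [hw, add_re, one_re, mul_re, ofReal_re, I_re, mul_zero, ofReal_im, I_im, mul_one,
      sub_zero]
    linarith [hz.1]
  set F : ℂ → ℂ := fun z => ∑ i ∈ S, c i (w + z) * Complex.exp (FF (b i) (w + z)) with hF
  have hFd : DifferentiableOn ℂ F (rect r) := by
    have ha : DifferentiableOn ℂ (fun z => w + z) (rect r) :=
      (differentiable_id.const_add w).differentiableOn
    have m1 : MapsTo (fun z => w + z) (rect r) U := fun z hz => hcbU (hin z hz)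
    have m2 : MapsTo (fun z => w + z) (rect r) {s : ℂ | 1 < s.re} := fun z hz => hre z hz
    have h1 : ∀ i ∈ S, DifferentiableOn ℂ
        (fun z => c i (w + z) * Complex.exp (FF (b i) (w + z))) (rect r) := fun i hi =>
      ((hc i hi).comp ha m1).mul ((differentiableOn_FF (hb i hi)).comp ha m2).cexp
    exact DifferentiableOn.fun_sum h1
  -- the set
  set Z' : Set ℝ := {t | τ₁ + t ∈ Z} ∩ Icc (-ρ) ρ with hZ'
  have hZ'0 : volume Z' ≠ 0 := by
    have h1 : Z ∩ Icc (τ₁ - ρ) (τ₁ + ρ) ∈ 𝓝[Z] τ₁ := by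
      refine inter_mem self_mem_nhdsWithin (mem_nhdsWithin_of_mem_nhds ?_)
      exact Icc_mem_nhds (by linarith) (by linarith)
    have h2 := hdens _ h1
    have h3 : Z' = (fun t => τ₁ + t) ⁻¹' (Z ∩ Icc (τ₁ - ρ) (τ₁ + ρ)) := by
      ext t
      simp only [hZ', mem_inter_iff, mem_preimage, mem_Icc]
      constructor
      · rintro ⟨h4, h5, h6⟩
        exact ⟨h4, by linarith, by linarith⟩
      · rintro ⟨h4, h5, h6⟩
        exact ⟨h4, by linarith, by linarith⟩
    rw [h3, measure_preimage_add]
    exact h2.ne'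
  -- the bound
  set q : ℝ := 1 / (2 * (M + 1)) with hq
  have hq0 : 0 < q := by positivity
  have hq1 : q ≤ 1 := by
    rw [hq, div_le_one (by positivity)]
    linarith
  have hqM : |q| * M ≤ 1 / 2 := by
    rw [abs_of_pos hq0, hq, div_mul_eq_mul_div, one_mul,
      div_le_div_iff₀ (by positivity) (by norm_num)]
    linarith
  set C : ℝ := Real.log 2 + Real.log B + 1 / q + (1 / q) * (S.card * 72) with hC
  have hbound : ∀ x, 0 < x → x < r → ∫ t in -ρ..ρ, UU 1 (F (pt (x, t))) ≤ C := by
    intro x hx hxr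
    set L : ι → ℝ → ℝ := fun i t => ‖Complex.exp (FF (b i) (w + pt (x, t)))‖ with hL
    have hcL : ∀ i ∈ S, Continuous fun t => L i t ^ q := by
      intro i hi
      have h1 := continuous_norm_exp (hb i hi) (σ := 1 + x) (by linarith) q
      have h2 : (fun t => L i t ^ q) = fun t : ℝ =>
          ‖Complex.exp (FF (b i) (((1 + x : ℝ) : ℂ) + (τ₁ + t : ℝ) * I))‖ ^ q := by
        funext t
        simp only [hL]
        congr 4
        simp only [hw, pt]
        push_cast
        ring
      rw [h2]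
      exact h1.comp (continuous_const.add continuous_id)
    have hint : ∀ i ∈ S, ∫ t in (-(1 / 2) : ℝ)..(1 / 2), L i t ^ q ≤ 72 := by
      intro i hi
      have h1 := hardy (b i) (hb i hi) (σ := 1 + x) (by linarith) (τ₁ - 1 / 2) (r := q)
        (lt_of_le_of_lt hqM (by norm_num))
      have h2 : 36 / (1 - |q| * M) ≤ 72 := by
        rw [div_le_iff₀ (by linarith)]
        linarith
      have h3 := intervalIntegral.integral_comp_add_left
        (fun u : ℝ => ‖Complex.exp (FF (b i) (((1 + x : ℝ) : ℂ) + u * I))‖ ^ q)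
        (a := -(1 / 2)) (b := 1 / 2) τ₁
      have h4 : ∫ t in (-(1 / 2) : ℝ)..(1 / 2), L i t ^ q =
          ∫ t in (-(1 / 2) : ℝ)..(1 / 2),
            ‖Complex.exp (FF (b i) (((1 + x : ℝ) : ℂ) + (τ₁ + t : ℝ) * I))‖ ^ q := by
        refine intervalIntegral.integral_congr fun t _ => ?_
        simp only [hL]
        congr 4
        simp only [hw, pt]
        push_cast
        ring
      rw [h4, h3]
      have h5 : τ₁ + 1 / 2 = τ₁ - 1 / 2 + 1 := by ring
      have h6 : τ₁ + -(1 / 2) = τ₁ - 1 / 2 := by ring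
      rw [h5, h6]
      exact h1.trans h2
    have hL0 : ∀ i t, 0 ≤ L i t := fun i t => norm_nonneg _
    have hLs : ∀ t, 0 ≤ ∑ i ∈ S, L i t := fun t => Finset.sum_nonneg fun i _ => hL0 i t
    set D : ℝ → ℝ := fun t => Real.log 2 + Real.log B + (1 / q + (1 / q) * ∑ i ∈ S, L i t ^ q)
      with hD
    have hlogB : 0 ≤ Real.log B := Real.log_nonneg hBone
    have hlog2 : 0 ≤ Real.log 2 := Real.log_nonneg (by norm_num)
    have hD0 : ∀ t, 0 ≤ D t := fun t => by
      have : 0 ≤ ∑ i ∈ S, L i t ^ q := Finset.sum_nonneg fun i _ => Real.rpow_nonneg (hL0 i t) q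
      simp only [hD]
      positivity
    have hcS : Continuous fun t => ∑ i ∈ S, L i t ^ q :=
      continuous_finsetSum _ fun i hi => hcL i hi
    have hDc : Continuous D := by simp only [hD]; fun_prop
    have hmem : ∀ t ∈ Icc (-ρ) ρ, pt (x, t) ∈ rect r := fun t ht =>
      pt_mem hx hxr (abs_le.2 ht) hρr
    calc ∫ t in -ρ..ρ, UU 1 (F (pt (x, t))) ≤ ∫ t in -ρ..ρ, D t := by
          refine intervalIntegral.integral_mono_on hle ?_ (hDc.intervalIntegrable _ _) fun t ht => ?_
          · refine ContinuousOn.intervalIntegrable ?_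
            rw [uIcc_of_le hle]
            exact (cont_UU one_pos hFd.continuousOn).comp
              ((continuous_pt.comp (by fun_prop)).continuousOn) (fun t ht => hmem t ht)
          · have hz := hin _ (hmem t ht)
            have h1 : ‖F (pt (x, t))‖ ≤ B * (1 + ∑ i ∈ S, L i t) := by
              calc ‖F (pt (x, t))‖ ≤ ∑ i ∈ S, B * L i t := by
                    simp only [hF]
                    refine norm_sum_le_of_le _ fun i hi => ?_
                    rw [norm_mul]
                    exact mul_le_mul_of_nonneg_right (hB i hi _ hz) (norm_nonneg _)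
                _ = B * ∑ i ∈ S, L i t := by rw [Finset.mul_sum]
                _ ≤ B * (1 + ∑ i ∈ S, L i t) := by
                    refine mul_le_mul_of_nonneg_left ?_ (by linarith)
                    linarith
            refine (UU_dom hBone hq0 hq1 (hLs t) h1).trans ?_
            have h2 := rpow_sum_le S (fun i => L i t) (fun i _ => hL0 i t) hq0 hq1
            simp only [hD]
            have h3 : (1 / q) * (∑ i ∈ S, L i t) ^ q ≤ (1 / q) * ∑ i ∈ S, L i t ^ q :=
              mul_le_mul_of_nonneg_left h2 (by positivity)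
            linarith
      _ ≤ ∫ t in (-(1 / 2) : ℝ)..(1 / 2), D t := by
          refine intervalIntegral.integral_mono_interval (by linarith) hle (by linarith)
            (Eventually.of_forall fun t => hD0 t) (hDc.intervalIntegrable _ _)
      _ = Real.log 2 + Real.log B + 1 / q +
          (1 / q) * ∫ t in (-(1 / 2) : ℝ)..(1 / 2), ∑ i ∈ S, L i t ^ q := by
          simp only [hD]
          rw [intervalIntegral.integral_add (by simp) ((by fun_prop : Continuous fun t =>
              1 / q + 1 / q * ∑ i ∈ S, L i t ^ q).intervalIntegrable _ _),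
            intervalIntegral.integral_add (by simp) ((by fun_prop : Continuous fun t =>
              1 / q * ∑ i ∈ S, L i t ^ q).intervalIntegrable _ _),
            intervalIntegral.integral_const_mul,
            intervalIntegral.integral_const, intervalIntegral.integral_const]
          simp only [smul_eq_mul]
          ring
      _ ≤ C := by
          rw [hC]
          have h1 : ∫ t in (-(1 / 2) : ℝ)..(1 / 2), ∑ i ∈ S, L i t ^ q ≤ S.card * 72 := by
            rw [intervalIntegral.integral_finset_sum fun i hi =>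
              (hcL i hi).intervalIntegrable _ _]
            refine (Finset.sum_le_sum hint).trans (le_of_eq ?_)
            rw [Finset.sum_const, nsmul_eq_mul]
          have : (1 / q) * ∫ t in (-(1 / 2) : ℝ)..(1 / 2), ∑ i ∈ S, L i t ^ q ≤
              (1 / q) * (S.card * 72) :=
            mul_le_mul_of_nonneg_left h1 (by positivity)
          linarith
  have hlim' : ∀ t ∈ Z', Tendsto (fun x : ℝ => F (pt (x, t))) (𝓝[>] 0) (𝓝 0) := by
    intro t ht
    refine (hlim (τ₁ + t) ht.1).congr fun x => ?_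
    have e : (1 + ((τ₁ + t : ℝ) : ℂ) * I + x : ℂ) = w + pt (x, t) := by
      simp only [hw, pt]
      push_cast
      ring
    rw [e]
  have hzero := local_uniqueness hFd hρ0 hρr hbound inter_subset_right hZ'0 hlim'
  -- the identity theorem
  have hV : IsOpen (U ∩ {s : ℂ | 1 < s.re}) :=
    hU.inter (isOpen_lt continuous_const Complex.continuous_re)
  have hA : AnalyticOnNhd ℂ (fun s => ∑ i ∈ S, c i s * Complex.exp (FF (b i) s))
      (U ∩ {s : ℂ | 1 < s.re}) := by
    refine DifferentiableOn.analyticOnNhd ?_ hV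
    exact DifferentiableOn.fun_sum fun i hi => ((hc i hi).mono inter_subset_left).mul
      ((differentiableOn_FF (hb i hi)).mono inter_subset_right).cexp
  set z0 : ℂ := ((r / 2 : ℝ) : ℂ) with hz0
  have hz0r : z0 ∈ rect r := by
    refine ⟨?_, ?_, ?_⟩
    · simp only [hz0, ofReal_re]; positivity
    · simp only [hz0, ofReal_re]; linarith
    · simp only [hz0, ofReal_im, abs_zero]; exact hr0
  have hev : (fun s => ∑ i ∈ S, c i s * Complex.exp (FF (b i) s)) =ᶠ[𝓝 (w + z0)] 0 := by
    have h1 : ∀ᶠ s in 𝓝 (w + z0), s - w ∈ rect r := by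
      have hc : Continuous fun s : ℂ => s - w := continuous_id.sub continuous_const
      refine hc.continuousAt.eventually (p := fun y => y ∈ rect r) ?_
      have e : w + z0 - w = z0 := by ring
      change ∀ᶠ y in 𝓝 (w + z0 - w), y ∈ rect r
      rw [e]
      exact (isOpen_rect r).mem_nhds hz0r
    filter_upwards [h1] with s hs
    have := hzero _ hs
    simp only [hF, add_sub_cancel] at this
    exact this
  have hfin := hA.eqOn_zero_of_preconnected_of_eventuallyEq_zero hUc
    ⟨hcbU (hin _ hz0r), hre _ hz0r⟩ hev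
  intro s hs hs1
  exact hfin ⟨hs, hs1⟩

end

end Pool.Agent.R409.EV
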