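import Pool.Agent.R409.EV.LI
import Pool.Agent.R409.EV.Uniq
import Pool.Agent.TH345.ET.X

/-!
# Algebraic independence of boundary values
-/

set_option autoImplicit false

namespace Pool.Agent.R409.EV

open Finset Filter Topology MeasureTheory
open Pool.Agent.TH339.MP (PP FF bl ap tm M_nonneg summable_tm radial_x ae_notMem)
open Pool.Agent.TH345.ET (ep tendsto_ep)
open Pool.Agent.W350.Edge (divSet)

lemma xs_analytic (s : ℂ) (o : Option Nat.Primes) : AnalyticAt ℂ (fun s => xs s o) s := by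
  rcases o with _ | p
  · exact analyticAt_const.mul (analyticAt_id.sub analyticAt_const)
  · exact Pool.Agent.TH345.ET.analytic_cpow p.2.two_le _ _ (analyticAt_const.sub analyticAt_id)

lemma aeval_analytic (R : MvPolynomial (Option Nat.Primes) ℂ) (s : ℂ) :
    AnalyticAt ℂ (fun s => MvPolynomial.aeval (xs s) R) s :=
  AnalyticAt.aeval_mvPolynomial (f := xs) (fun o => xs_analytic s o) R

lemma aeval_diff (R : MvPolynomial (Option Nat.Primes) ℂ) :
    DifferentiableOn ℂ (fun s => MvPolynomial.aeval (xs s) R) Set.univ := fun s _ =>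
  (aeval_analytic R s).differentiableAt.differentiableWithinAt

lemma pre_univ : IsPreconnected ((Set.univ : Set ℂ) ∩ {s : ℂ | 1 < s.re}) := by
  rw [Set.univ_inter]
  exact (convex_halfSpace_re_gt 1).isPreconnected

section
variable {J : Type*} {b : J → PP → ℂ} {M : J → ℝ}

/-- the coefficients of a monomial in the Euler products -/
noncomputable def bm (b : J → PP → ℂ) (m : J →₀ ℕ) (x : PP) : ℂ :=
  m.sum fun j k => (k : ℂ) * b j x

lemma bm_bound (hb : ∀ j x, ‖b j x‖ ≤ M j / (x.2 + 1 : ℕ)) (m : J →₀ ℕ) (x : PP) :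
    ‖bm b m x‖ ≤ (m.sum fun j k => (k : ℝ) * M j) / (x.2 + 1 : ℕ) := by
  unfold bm Finsupp.sum
  rw [sum_div]
  refine norm_sum_le_of_le _ fun j _ => ?_
  rw [norm_mul, Complex.norm_natCast, mul_div_assoc]
  exact mul_le_mul_of_nonneg_left (hb j x) (Nat.cast_nonneg _)

lemma FF_bm (hb : ∀ j x, ‖b j x‖ ≤ M j / (x.2 + 1 : ℕ)) (m : J →₀ ℕ) {s : ℂ} (hs : 1 < s.re) :
    FF (bm b m) s = m.sum fun j k => (k : ℂ) * FF (b j) s := by
  unfold Finsupp.sum
  have h1 := hasSum_sum (s := m.support) fun j _ =>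
    ((summable_tm (hb j) hs).hasSum.mul_left ((m j : ℕ) : ℂ))
  have h2 : (fun x => ∑ j ∈ m.support, ((m j : ℕ) : ℂ) * tm (b j) s x) = tm (bm b m) s := by
    funext x
    unfold Pool.Agent.TH339.MP.tm bm Finsupp.sum
    rw [sum_mul]
    refine sum_congr rfl fun j _ => ?_
    ring
  rw [h2] at h1
  exact h1.tsum_eq

lemma exp_bm (hb : ∀ j x, ‖b j x‖ ≤ M j / (x.2 + 1 : ℕ)) (m : J →₀ ℕ) {s : ℂ} (hs : 1 < s.re) :
    Complex.exp (FF (bm b m) s) = m.prod fun j k => Complex.exp (FF (b j) s) ^ k := by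
  rw [FF_bm hb m hs]
  unfold Finsupp.sum Finsupp.prod
  rw [Complex.exp_sum]
  refine prod_congr rfl fun j _ => ?_
  rw [Complex.exp_nat_mul]

/-- **Relations between boundary values are trivial.** -/
theorem rel_zero (hb : ∀ j x, ‖b j x‖ ≤ M j / (x.2 + 1 : ℕ))
    (hind : ∀ e : J →₀ ℤ, e ≠ 0 →
      {p : Nat.Primes | ∃ k : ℕ, (e.sum fun j m => (m : ℂ) * b j (p, k)) ≠ 0}.Infinite)
    (S : Finset (J →₀ ℕ)) (R : (J →₀ ℕ) → MvPolynomial (Option Nat.Primes) ℂ) {Z : Set ℝ}
    (hZ : volume Z ≠ 0)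
    (hZd : ∀ τ ∈ Z, ∀ m ∈ S, ∀ j ∈ m.support, τ ∉ divSet (ap (b j)))
    (hrel : ∀ τ ∈ Z, ∑ m ∈ S, MvPolynomial.aeval (xs (ep τ)) (R m) *
      m.prod (fun j k => Complex.exp (bl (b j) τ) ^ k) = 0) : ∀ m ∈ S, R m = 0 := by
  classical
  have hM : ∀ j, 0 ≤ M j := fun j => M_nonneg (hb j)
  set M' : ℝ := ∑ m ∈ S, (m.sum fun j k => (k : ℝ) * M j) with hM'
  have hpos : ∀ m : J →₀ ℕ, 0 ≤ m.sum fun j k => (k : ℝ) * M j := fun m =>
    sum_nonneg fun j _ => mul_nonneg (Nat.cast_nonneg _) (hM j)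
  have hM'0 : 0 ≤ M' := sum_nonneg fun m _ => hpos m
  have hbb : ∀ m ∈ S, ∀ x, ‖bm b m x‖ ≤ M' / (x.2 + 1 : ℕ) := by
    intro m hm x
    refine (bm_bound hb m x).trans (div_le_div_of_nonneg_right ?_ (Nat.cast_nonneg _))
    exact single_le_sum (f := fun m : J →₀ ℕ => m.sum fun j k => (k : ℝ) * M j)
      (fun m _ => hpos m) hm
  have h1 := unique_sum (b := bm b) S hM'0 hbb isOpen_univ pre_univ
    (c := fun m s => MvPolynomial.aeval (xs s) (R m)) (fun m _ => aeval_diff (R m)) hZ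
    (fun τ _ => Set.mem_univ _) (fun τ hτ => by
      have h2 : ∀ m ∈ S, Tendsto (fun x : ℝ =>
          MvPolynomial.aeval (xs (1 + τ * Complex.I + x)) (R m) *
            Complex.exp (FF (bm b m) (1 + τ * Complex.I + x))) (𝓝[>] 0)
          (𝓝 (MvPolynomial.aeval (xs (ep τ)) (R m) *
            m.prod fun j k => Complex.exp (bl (b j) τ) ^ k)) := by
        intro m hm
        have h3 : Tendsto (fun x : ℝ => MvPolynomial.aeval (xs (1 + τ * Complex.I + x)) (R m))
            (𝓝[>] 0) (𝓝 (MvPolynomial.aeval (xs (ep τ)) (R m))) :=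
          ((aeval_analytic (R m) (ep τ)).continuousAt.tendsto).comp (tendsto_ep τ)
        refine h3.mul ?_
        have h4 : Tendsto (fun x : ℝ => ∏ j ∈ m.support,
            Complex.exp (FF (b j) (1 + τ * Complex.I + x)) ^ m j) (𝓝[>] 0)
            (𝓝 (∏ j ∈ m.support, Complex.exp (bl (b j) τ) ^ m j)) := by
          refine tendsto_finsetProd _ fun j hj => ?_
          exact ((Complex.continuous_exp.tendsto _).comp
            (radial_x (hb j) (hZd τ hτ m hm j hj))).pow _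
        refine h4.congr' ?_
        filter_upwards [self_mem_nhdsWithin] with x hx
        have hx' : (0 : ℝ) < x := hx
        have h5 : 1 < (1 + τ * Complex.I + x : ℂ).re := by simp [hx']
        rw [exp_bm hb m h5]
        rfl
      have h6 := tendsto_finsetSum S h2
      rwa [hrel τ hτ] at h6)
  refine li hbb (fun m hm m' hm' hne => ?_) (fun s hs => h1 s (Set.mem_univ _) hs)
  set e : J →₀ ℤ := m.mapRange (fun k : ℕ => (k : ℤ)) rfl - m'.mapRange (fun k : ℕ => (k : ℤ)) rfl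
    with he
  have he0 : e ≠ 0 := by
    intro h0
    apply hne
    ext j
    have h2 := DFunLike.congr_fun h0 j
    simp only [he, Finsupp.sub_apply, Finsupp.mapRange_apply, Finsupp.zero_apply] at h2
    omega
  refine (hind e he0).mono ?_
  rintro p ⟨k, hk⟩
  refine ⟨k, fun heq => hk ?_⟩
  have h3 : (e.sum fun j m => (m : ℂ) * b j (p, k)) = bm b m (p, k) - bm b m' (p, k) := by
    rw [he, Finsupp.sum_sub_index (fun j a c => by push_cast; ring),
      Finsupp.sum_mapRange_index (fun j => by simp), Finsupp.sum_mapRange_index (fun j => by simp)]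
    unfold bm
    simp
  rw [h3, heq, sub_self]

/-- a nonzero polynomial in `τ` and the `p^{-iτ}` vanishes almost nowhere -/
theorem ae_ne {R : MvPolynomial (Option Nat.Primes) ℂ} (hR : R ≠ 0) :
    ∀ᵐ τ : ℝ, MvPolynomial.aeval (xs (ep τ)) R ≠ 0 := by
  by_contra hcon
  have hZ : volume {τ : ℝ | ¬ MvPolynomial.aeval (xs (ep τ)) R ≠ 0} ≠ 0 := hcon
  apply hR
  have hb : ∀ (j : Empty) (x : PP), ‖(fun (_ : Empty) (_ : PP) => (0 : ℂ)) j x‖ ≤
      (fun _ => (0 : ℝ)) j / (x.2 + 1 : ℕ) := fun j => j.elim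
  refine rel_zero (J := Empty) (b := fun _ _ => 0) (M := fun _ => 0) hb
    (fun e he => absurd (Subsingleton.elim e 0) he) {0} (fun _ => R) hZ
    (fun τ _ m hm j hj => j.elim) (fun τ hτ => ?_) 0 (mem_singleton_self _)
  have h1 : MvPolynomial.aeval (xs (ep τ)) R = 0 := not_not.1 hτ
  rw [sum_singleton, h1, zero_mul]

end

/-- evaluation of the iterated polynomial -/
lemma eval_sum {J O : Type*} (l : J → ℂ) (x : O → ℂ) (P : MvPolynomial (J ⊕ O) ℂ) :
    MvPolynomial.aeval (Sum.elim l x) P =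
      ∑ m ∈ (MvPolynomial.sumRingEquiv ℂ J O P).support,
        MvPolynomial.aeval x (MvPolynomial.coeff m (MvPolynomial.sumRingEquiv ℂ J O P)) *
          m.prod fun j k => l j ^ k := by
  have h1 : (MvPolynomial.eval₂Hom (MvPolynomial.aeval x : MvPolynomial O ℂ →ₐ[ℂ] ℂ).toRingHom
      l).comp (MvPolynomial.sumRingEquiv ℂ J O).toRingHom =
      (MvPolynomial.aeval (Sum.elim l x) : MvPolynomial (J ⊕ O) ℂ →ₐ[ℂ] ℂ).toRingHom := by
    refine MvPolynomial.ringHom_ext (fun a => ?_) fun i => ?_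
    · simp
    · rcases i with j | o
      · simp
      · simp
  have h2 := RingHom.congr_fun h1 P
  change _ = MvPolynomial.aeval (Sum.elim l x) P at h2
  rw [← h2, RingHom.comp_apply, MvPolynomial.coe_eval₂Hom]
  change MvPolynomial.eval₂ _ l (MvPolynomial.sumRingEquiv ℂ J O P) = _
  rw [MvPolynomial.eval₂_eq]
  rfl

end Pool.Agent.R409.EV
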