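import Pool.Agent.TH339.MP.X6
import Mathlib.NumberTheory.LSeries.Convolution

/-!
# The exponential of a Dirichlet series
-/

set_option autoImplicit false

namespace Pool.Agent.R409.EV

open Filter Topology LSeries
open Pool.Agent.TH339.MP (PP FF aco aco_zero aco_qq qq qq_injective hasSum_aco tm)

lemma term_mul (f g : ArithmeticFunction ℂ) (s : ℂ) (n : ℕ) :
    term (f * g : ArithmeticFunction ℂ) s n =
      ∑ p ∈ n.divisorsAntidiagonal, term f s p.1 * term g s p.2 := by
  rw [← ArithmeticFunction.coe_mul, term_convolution]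

/-- the norms of the product -/
lemma norm_mul_le (f g : ArithmeticFunction ℂ) (s : ℂ) (hf : Summable fun n => ‖term f s n‖)
    (hg : Summable fun n => ‖term g s n‖) :
    (Summable fun n => ‖term (f * g : ArithmeticFunction ℂ) s n‖) ∧
      ∑' n, ‖term (f * g : ArithmeticFunction ℂ) s n‖ ≤
        (∑' n, ‖term f s n‖) * ∑' n, ‖term g s n‖ := by
  have hs := hf.mul_of_nonneg hg (fun n => norm_nonneg _) (fun n => norm_nonneg _)
  have ht : (∑' n, ‖term f s n‖) * ∑' n, ‖term g s n‖ =
      ∑' x : ℕ × ℕ, ‖term f s x.1‖ * ‖term g s x.2‖ := hf.tsum_mul_tsum hg hs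
  have key : ∀ F : Finset ℕ, ∑ n ∈ F, ‖term (f * g : ArithmeticFunction ℂ) s n‖ ≤
      (∑' n, ‖term f s n‖) * ∑' n, ‖term g s n‖ := by
    intro F
    calc ∑ n ∈ F, ‖term (f * g : ArithmeticFunction ℂ) s n‖
        ≤ ∑ n ∈ F, ∑ p ∈ n.divisorsAntidiagonal, ‖term f s p.1‖ * ‖term g s p.2‖ := by
          refine Finset.sum_le_sum fun n _ => ?_
          rw [term_mul]
          refine (norm_sum_le _ _).trans (Finset.sum_le_sum fun p _ => ?_)
          rw [norm_mul]
      _ = ∑ x ∈ F.sigma fun n => n.divisorsAntidiagonal, ‖term f s x.2.1‖ * ‖term g s x.2.2‖ := by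
          rw [Finset.sum_sigma]
      _ = ∑ y ∈ (F.sigma fun n => n.divisorsAntidiagonal).image (fun x => x.2),
            ‖term f s y.1‖ * ‖term g s y.2‖ := by
          rw [Finset.sum_image]
          rintro ⟨n, p⟩ hx ⟨n', p'⟩ hy h
          simp only [Finset.coe_sigma, Set.mem_sigma_iff, SetLike.mem_coe,
            Nat.mem_divisorsAntidiagonal] at hx hy h
          subst h
          have : n = n' := by rw [← hx.2.1, ← hy.2.1]
          subst this
          rfl
      _ ≤ ∑' x : ℕ × ℕ, ‖term f s x.1‖ * ‖term g s x.2‖ :=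
          hs.sum_le_tsum _ fun x _ => mul_nonneg (norm_nonneg _) (norm_nonneg _)
      _ = _ := ht.symm
  refine ⟨summable_of_sum_le (fun n => norm_nonneg _) key, ?_⟩
  exact Real.tsum_le_of_sum_le (fun n => norm_nonneg _) key

/-- the norms of the powers -/
lemma norm_pow_le (f : ArithmeticFunction ℂ) (s : ℂ) (hf : Summable fun n => ‖term f s n‖) (m : ℕ) :
    (Summable fun n => ‖term (f ^ m : ArithmeticFunction ℂ) s n‖) ∧
      ∑' n, ‖term (f ^ m : ArithmeticFunction ℂ) s n‖ ≤ (∑' n, ‖term f s n‖) ^ m := by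
  induction m with
  | zero =>
    have h1 : ∀ n, ‖term ((f ^ 0 : ArithmeticFunction ℂ)) s n‖ = if n = 1 then 1 else 0 := by
      intro n
      rw [pow_zero]
      by_cases hn : n = 1
      · subst hn
        simp
      · rw [if_neg hn]
        by_cases h0 : n = 0
        · subst h0
          simp
        · rw [term_of_ne_zero h0, ArithmeticFunction.one_apply_ne hn]
          simp
    simp_rw [h1]
    refine ⟨(hasSum_ite_eq 1 (1 : ℝ)).summable, ?_⟩
    rw [tsum_ite_eq, pow_zero]
  | succ m ih =>
    rw [pow_succ f m, pow_succ (∑' n, ‖term f s n‖) m]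
    obtain ⟨h1, h2⟩ := norm_mul_le (f ^ m) f s ih.1 hf
    refine ⟨h1, h2.trans ?_⟩
    exact mul_le_mul_of_nonneg_right ih.2 (tsum_nonneg fun n => norm_nonneg _)

lemma hasSum_pow (f : ArithmeticFunction ℂ) (s : ℂ) (hf : LSeriesSummable f s) (m : ℕ) :
    LSeriesHasSum (f ^ m : ArithmeticFunction ℂ) s (LSeries f s ^ m) := by
  induction m with
  | zero =>
    rw [pow_zero, pow_zero]
    have h1 : ∀ n, term ((1 : ArithmeticFunction ℂ)) s n = if n = 1 then 1 else 0 := by
      intro n
      by_cases hn : n = 1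
      · subst hn
        simp
      · rw [if_neg hn]
        by_cases h0 : n = 0
        · subst h0
          simp
        · rw [term_of_ne_zero h0, ArithmeticFunction.one_apply_ne hn]
          simp
    unfold LSeriesHasSum
    have h2 : term (⇑(1 : ArithmeticFunction ℂ)) s = fun n => if n = 1 then (1 : ℂ) else 0 :=
      funext h1
    rw [h2]
    exact hasSum_ite_eq 1 (1 : ℂ)
  | succ m ih =>
    rw [pow_succ, pow_succ]
    exact ArithmeticFunction.LSeriesHasSum_mul ih hf.LSeriesHasSum

/-- The exponential of an arithmetic function. -/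
noncomputable def ex (f : ArithmeticFunction ℂ) (n : ℕ) : ℂ :=
  ∑' m : ℕ, (f ^ m : ArithmeticFunction ℂ) n / (m.factorial : ℂ)

/-- **The Dirichlet series of the exponential.** -/
theorem hasSum_ex (f : ArithmeticFunction ℂ) (s : ℂ) (hf : LSeriesSummable f s) :
    LSeriesHasSum (ex f) s (Complex.exp (LSeries f s)) := by
  have hn : Summable fun n => ‖term f s n‖ := hf.norm
  set A := ∑' n, ‖term f s n‖ with hA
  obtain ⟨T, hT⟩ : ∃ T : ℕ × ℕ → ℂ, ∀ m n, T (m, n) = term (f ^ m : ArithmeticFunction ℂ) s n /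
    (m.factorial : ℂ) := ⟨fun x => term (f ^ x.1 : ArithmeticFunction ℂ) s x.2 /
    (x.1.factorial : ℂ), fun _ _ => rfl⟩
  have hnT : ∀ m n, ‖T (m, n)‖ = ‖term (f ^ m : ArithmeticFunction ℂ) s n‖ / m.factorial := by
    intro m n
    rw [hT, norm_div, Complex.norm_natCast]
  have hsum : Summable T := by
    refine Summable.of_norm ?_
    rw [summable_prod_of_nonneg fun x => norm_nonneg _]
    constructor
    · intro m
      simp_rw [hnT]
      exact (norm_pow_le f s hn m).1.div_const _
    · simp_rw [hnT]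
      refine Summable.of_nonneg_of_le (fun m => tsum_nonneg fun n => by positivity) (fun m => ?_)
        (Real.summable_pow_div_factorial A)
      rw [tsum_div_const]
      exact div_le_div_of_nonneg_right (norm_pow_le f s hn m).2 (by positivity)
  have h1 : HasSum T (Complex.exp (LSeries f s)) := by
    have h2 : ∀ m : ℕ, HasSum (fun n => T (m, n)) (LSeries f s ^ m / (m.factorial : ℂ)) :=
      fun m => by
        simp_rw [hT]
        exact (hasSum_pow f s hf m).div_const _
    have h3 : HasSum (fun m : ℕ => LSeries f s ^ m / (m.factorial : ℂ))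
        (Complex.exp (LSeries f s)) := by
      rw [Complex.exp_eq_exp_ℂ]
      exact NormedSpace.expSeries_div_hasSum_exp _
    have h4 := hsum.hasSum.prod_fiberwise h2
    rw [← h4.unique h3]
    exact hsum.hasSum
  have h5 : HasSum (fun x : ℕ × ℕ => T (x.2, x.1)) (Complex.exp (LSeries f s)) :=
    (Equiv.prodComm ℕ ℕ).hasSum_iff.2 h1
  have h6 : ∀ n, HasSum (fun m => T (m, n)) (term (ex f) s n) := by
    intro n
    have h7 : Summable fun m => T (m, n) := by
      have h9 : Summable (fun x : ℕ × ℕ => T (x.2, x.1)) := hsum.prod_symm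
      exact h9.prod_factor n
    have h8 : ∑' m, T (m, n) = term (ex f) s n := by
      simp_rw [hT]
      by_cases h0 : n = 0
      · subst h0
        simp
      · rw [term_of_ne_zero h0]
        unfold ex
        rw [← tsum_div_const]
        refine tsum_congr fun m => ?_
        rw [term_of_ne_zero h0]
        ring
    rw [← h8]
    exact h7.hasSum
  exact h5.prod_fiberwise h6

end Pool.Agent.R409.EV
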