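import Pool.Agent.TH958.BV.Defs

/-!
# Families of L-functions of varieties: definitions
-/

set_option autoImplicit false

namespace Pool.Agent.R409.EV

open NumberField IsDedekindDomain Filter Topology Polynomial Pool.Agent.TH958.BV

/-- A number field `K`, a projective variety `X` over `K` of dimension `d`, given by equations with
integral coefficients, a degree `i` and a system `B` of Euler factors of `L(H^i(X), s)`, where `N` is
the `i`-th Betti number of `X`; the factors at the finitely many bad primes are arbitrary polynomials
`≠ 0` with algebraic coefficients. -/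
structure Datum where
  /-- the number field -/
  K : Type
  [field : Field K]
  [numberField : NumberField K]
  /-- the number of homogeneous coordinates -/
  n : ℕ
  /-- the equations -/
  X : Set (MvPolynomial (Fin n) (𝓞 K))
  /-- the dimension of the variety -/
  d : ℕ
  /-- the degree of the cohomology -/
  i : ℕ
  /-- the Betti number -/
  N : ℕ
  /-- the Euler factors -/
  B : HeightOneSpectrum (𝓞 K) → ℂ[X]
  isEulerSystem : IsEulerSystem X d i N B

attribute [instance] Datum.field Datum.numberField

/-- The product of the Euler factors of `L(H^i(X), s + i/2)` at the primes above `p`. -/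
noncomputable def factorAt (V : Datum) (p : Nat.Primes) (s : ℂ) : ℂ :=
  ∏ᶠ v ∈ {v : HeightOneSpectrum (𝓞 V.K) | ((p : ℕ) : 𝓞 V.K) ∈ v.asIdeal},
    localFactor V.B v (s + (V.i : ℂ) / 2)

/-- The L-functions `L(H^{i_j}(X_j), s + i_j/2)` are multiplicatively independent: for integers
`e_j`, only finitely many and not all of them different from `0`, the Euler product
`∏_j L(H^{i_j}(X_j), s + i_j/2)^{e_j}` has infinitely many Euler factors which are not identically
`1`. -/
def MultIndep {J : Type} (V : J → Datum) : Prop :=
  ∀ e : J →₀ ℤ, e ≠ 0 →
    {p : Nat.Primes | ∃ s : ℂ, 1 < s.re ∧ (e.prod fun j m => factorAt (V j) p s ^ m) ≠ 1}.Infinite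

end Pool.Agent.R409.EV
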