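import Mathlib

/-!
# Polynomial relations with Dirichlet series as coefficients
-/

set_option autoImplicit false

namespace Pool.Agent.R409.EV

open Finset Filter Topology LSeries

/-- a Dirichlet series is exponentially close to its first term -/
lemma first_term {G : ℕ → ℂ} {n : ℕ} (hn : n ≠ 0) (h0 : ∀ m, m ≠ 0 → m < n → G m = 0)
    (hs : ∀ s : ℂ, 1 < s.re → LSeriesSummable G s) :
    ∃ C : ℝ, ∀ x : ℝ, 2 ≤ x → ‖(n : ℂ) ^ (x : ℂ) * LSeries G x - G n‖ ≤
      C * ((n : ℝ) / (n + 1)) ^ (x - 2) := by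
  have hn' : (0 : ℝ) < n := by exact_mod_cast Nat.pos_of_ne_zero hn
  have h2 : Summable fun m => ‖term G ((2 : ℝ) : ℂ) m‖ := (hs _ (by simp)).norm
  refine ⟨(n : ℝ) ^ (2 : ℝ) * ∑' m, ‖term G ((2 : ℝ) : ℂ) m‖, fun x hx => ?_⟩
  have hx1 : LSeriesSummable G (x : ℂ) := hs _ (by simp; linarith)
  have h3 : HasSum (fun m => (n : ℂ) ^ (x : ℂ) * term G x m - if m = n then G n else 0)
      ((n : ℂ) ^ (x : ℂ) * LSeries G x - G n) :=
    (hx1.hasSum.mul_left _).sub (hasSum_ite_eq n (G n))
  have hθ : 0 < (n : ℝ) / (n + 1) := by positivity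
  have hb : ∀ m, ‖(n : ℂ) ^ (x : ℂ) * term G x m - if m = n then G n else 0‖ ≤
      ((n : ℝ) ^ (2 : ℝ) * ‖term G ((2 : ℝ) : ℂ) m‖) * ((n : ℝ) / (n + 1)) ^ (x - 2) := by
    intro m
    have hR : 0 ≤ ((n : ℝ) ^ (2 : ℝ) * ‖term G ((2 : ℝ) : ℂ) m‖) *
      ((n : ℝ) / (n + 1)) ^ (x - 2) := by positivity
    by_cases hm0 : m = 0
    · subst hm0
      rw [term_zero, mul_zero, if_neg (Ne.symm hn), sub_zero, norm_zero]
      exact hR
    · rcases lt_trichotomy m n with h | h | h
      · rw [term_of_ne_zero hm0, h0 m hm0 h, zero_div, mul_zero, if_neg h.ne, sub_zero, norm_zero]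
        exact hR
      · subst h
        rw [if_pos rfl, term_of_ne_zero hm0]
        have : (m : ℂ) ^ (x : ℂ) ≠ 0 := by
          rw [Complex.cpow_ne_zero_iff]
          exact Or.inl (Nat.cast_ne_zero.2 hm0)
        rw [mul_div_cancel₀ _ this, sub_self, norm_zero]
        exact hR
      · rw [if_neg h.ne', sub_zero, norm_mul, term_of_ne_zero hm0, term_of_ne_zero hm0, norm_div,
          norm_div, Complex.norm_natCast_cpow_of_pos (Nat.pos_of_ne_zero hm0),
          Complex.norm_natCast_cpow_of_pos (Nat.pos_of_ne_zero hm0),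
          Complex.norm_natCast_cpow_of_pos (Nat.pos_of_ne_zero hn), Complex.ofReal_re,
          Complex.ofReal_re]
        have hm' : (0 : ℝ) < m := by exact_mod_cast Nat.pos_of_ne_zero hm0
        have h4 : (n : ℝ) ^ x * (‖G m‖ / (m : ℝ) ^ x) = ‖G m‖ * ((n : ℝ) / m) ^ x := by
          rw [Real.div_rpow hn'.le hm'.le]
          ring
        have h5 : (n : ℝ) ^ (2 : ℝ) * (‖G m‖ / (m : ℝ) ^ (2 : ℝ)) =
            ‖G m‖ * ((n : ℝ) / m) ^ (2 : ℝ) := by
          rw [Real.div_rpow hn'.le hm'.le]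
          ring
        rw [h4, h5, mul_assoc]
        refine mul_le_mul_of_nonneg_left ?_ (norm_nonneg _)
        have h6 : ((n : ℝ) / m) ^ x = ((n : ℝ) / m) ^ (2 : ℝ) * ((n : ℝ) / m) ^ (x - 2) := by
          rw [← Real.rpow_add (by positivity)]
          congr 1
          ring
        rw [h6]
        refine mul_le_mul_of_nonneg_left ?_ (by positivity)
        refine Real.rpow_le_rpow (by positivity) ?_ (by linarith)
        refine div_le_div_of_nonneg_left hn'.le (by positivity) ?_
        exact_mod_cast h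
  have h4 : Summable fun m => ((n : ℝ) ^ (2 : ℝ) * ‖term G ((2 : ℝ) : ℂ) m‖) *
      ((n : ℝ) / (n + 1)) ^ (x - 2) := (h2.mul_left _).mul_right _
  rw [← h3.tsum_eq]
  refine (tsum_of_norm_bounded h4.hasSum hb).trans (le_of_eq ?_)
  rw [tsum_mul_right, tsum_mul_left]

lemma pow_mul_rpow_tendsto {θ : ℝ} (h0 : 0 < θ) (h1 : θ < 1) (k : ℕ) :
    Tendsto (fun x : ℝ => x ^ k * θ ^ (x - 2)) atTop (𝓝 0) := by
  have hl : 0 < -Real.log θ := by
    have := Real.log_neg h0 h1
    linarith
  have h2 := tendsto_rpow_mul_exp_neg_mul_atTop_nhds_zero (k : ℝ) (-Real.log θ) hl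
  have h3 := h2.mul_const (θ ^ (-2 : ℝ))
  rw [zero_mul] at h3
  refine h3.congr' ?_
  filter_upwards [eventually_gt_atTop 0] with x hx
  rw [Real.rpow_natCast, sub_eq_add_neg, Real.rpow_add h0, Real.rpow_def_of_pos h0 x]
  have : - -Real.log θ * x = Real.log θ * x := by ring
  rw [this]
  ring

/-- **Elimination of the powers.** -/
theorem elim_pow {K : ℕ} {G : ℕ → ℕ → ℂ} (hs : ∀ k < K, ∀ s : ℂ, 1 < s.re → LSeriesSummable (G k) s)
    {u : ℝ → ℂ} (hu1 : ∀ x : ℝ, 1 < x → ‖u x‖ ≤ x) (hu2 : Tendsto (fun x => ‖u x‖) atTop atTop)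
    (h : ∀ x : ℝ, 1 < x → ∑ k ∈ range K, u x ^ k * LSeries (G k) x = 0) :
    ∀ n, n ≠ 0 → ∀ k < K, G k n = 0 := by
  intro n
  induction n using Nat.strong_induction_on with
  | _ n ih =>
    intro hn
    have hn' : (0 : ℝ) < n := by exact_mod_cast Nat.pos_of_ne_zero hn
    set θ : ℝ := (n : ℝ) / (n + 1) with hθ
    have hθ0 : 0 < θ := by positivity
    have hθ1 : θ < 1 := by
      rw [hθ, div_lt_one (by positivity)]
      linarith
    -- each error tends to zero
    have herr : ∀ k ∈ range K, Tendsto (fun x : ℝ => u x ^ k *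
        ((n : ℂ) ^ (x : ℂ) * LSeries (G k) x - G k n)) atTop (𝓝 0) := by
      intro k hk
      rw [mem_range] at hk
      obtain ⟨C, hC⟩ := first_term hn (fun m hm hmn => ih m hmn hm k hk) (hs k hk)
      have h1 := (pow_mul_rpow_tendsto hθ0 hθ1 k).const_mul |C|
      rw [mul_zero] at h1
      refine squeeze_zero_norm' ?_ h1
      filter_upwards [eventually_ge_atTop 2] with x hx
      rw [norm_mul, norm_pow]
      have h2 := hC x hx
      have h3 : ‖u x‖ ^ k ≤ x ^ k := pow_le_pow_left₀ (norm_nonneg _) (hu1 x (by linarith)) k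
      have h4 : ‖(n : ℂ) ^ (x : ℂ) * LSeries (G k) x - G k n‖ ≤ |C| * θ ^ (x - 2) :=
        h2.trans (mul_le_mul_of_nonneg_right (le_abs_self C) (by positivity))
      calc ‖u x‖ ^ k * ‖(n : ℂ) ^ (x : ℂ) * LSeries (G k) x - G k n‖
          ≤ x ^ k * (|C| * θ ^ (x - 2)) :=
            mul_le_mul h3 h4 (norm_nonneg _) (by positivity)
        _ = |C| * (x ^ k * θ ^ (x - 2)) := by ring
    have hsum := tendsto_finsetSum (range K) herr
    rw [sum_const_zero] at hsum
    set P : Polynomial ℂ := ∑ k ∈ range K, Polynomial.monomial k (G k n) with hP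
    have hPe : ∀ z : ℂ, P.eval z = ∑ k ∈ range K, z ^ k * G k n := by
      intro z
      rw [hP, Polynomial.eval_finsetSum]
      refine sum_congr rfl fun k _ => ?_
      rw [Polynomial.eval_monomial]
      ring
    have hlim : Tendsto (fun x : ℝ => P.eval (u x)) atTop (𝓝 0) := by
      have h1 := hsum.neg
      rw [neg_zero] at h1
      refine h1.congr' ?_
      filter_upwards [eventually_gt_atTop 1] with x hx
      rw [hPe]
      have h2 := h x hx
      have h3 : ∑ k ∈ range K, u x ^ k * ((n : ℂ) ^ (x : ℂ) * LSeries (G k) x - G k n) =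
          (n : ℂ) ^ (x : ℂ) * (∑ k ∈ range K, u x ^ k * LSeries (G k) x) -
            ∑ k ∈ range K, u x ^ k * G k n := by
        rw [mul_sum, ← sum_sub_distrib]
        refine sum_congr rfl fun k _ => ?_
        ring
      rw [h3, h2, mul_zero, zero_sub, neg_neg]
    have hP0 : P = 0 := by
      by_cases hdeg : 0 < P.degree
      · exfalso
        have h1 := Polynomial.tendsto_norm_atTop P hdeg hu2
        have h2 := hlim.norm
        rw [norm_zero] at h2
        exact not_tendsto_nhds_of_tendsto_atTop h1 0 h2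
      · push Not at hdeg
        have h1 := Polynomial.eq_C_of_degree_le_zero hdeg
        rw [h1] at hlim
        simp only [Polynomial.eval_C] at hlim
        have h2 := tendsto_nhds_unique hlim tendsto_const_nhds
        rw [h1, ← h2, Polynomial.C_0]
    intro k hk
    have h1 : P.coeff k = G k n := by
      rw [hP, Polynomial.finsetSum_coeff]
      simp only [Polynomial.coeff_monomial]
      rw [sum_ite_eq' (range K) k, if_pos (mem_range.2 hk)]
    rw [← h1, hP0, Polynomial.coeff_zero]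

end Pool.Agent.R409.EV
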