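import Pool.Agent.TH958.BV.Defs
import Pool.Agent.TH345.ET.X

/-!
# The L-function of a projective variety as an Euler product with normalised parameters
-/

set_option autoImplicit false

namespace Pool.Agent.R409.EV

open NumberField IsDedekindDomain Filter Topology Polynomial MeasureTheory
open Pool.Agent.TH958.BV (IsFrobenius IsEulerSystem localFactor LFun edgePoint angle)
open Pool.Agent.TH339.MP (PP FF bb norm_bb hasProd_L nm)

variable {K : Type} [Field K] [NumberField K] {n : ℕ}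

/-- The good primes. -/
def GoodV (X : Set (MvPolynomial (Fin n) (𝓞 K))) (d i N : ℕ)
    (B : HeightOneSpectrum (𝓞 K) → ℂ[X]) (v : HeightOneSpectrum (𝓞 K)) : Prop :=
  ∃ α : Fin N → ℂ, IsFrobenius X d i v α ∧ ∀ z : ℂ, (B v).eval z = ∏ j, (1 - α j * z)

lemma norm_al {X : Set (MvPolynomial (Fin n) (𝓞 K))} {d i N : ℕ}
    {v : HeightOneSpectrum (𝓞 K)} {α : Fin N → ℂ} (h : IsFrobenius X d i v α) (j : Fin N) :
    ‖α j‖ = (nm v : ℝ) ^ ((i : ℝ) / 2) := by
  obtain ⟨β, h1, h2, h3⟩ := h
  refine h2 i (α j) ?_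
  rw [h1]
  exact Multiset.mem_map_of_mem _ (Finset.mem_univ_val j)

open Classical in
/-- The normalised eigenvalues of Frobenius, `0` at the bad primes. -/
noncomputable def be (X : Set (MvPolynomial (Fin n) (𝓞 K))) (d i N : ℕ)
    (B : HeightOneSpectrum (𝓞 K) → ℂ[X]) (v : HeightOneSpectrum (𝓞 K)) (j : Fin N) : ℂ :=
  if h : GoodV X d i N B v then h.choose j * (nm v : ℂ) ^ (-((i : ℂ) / 2)) else 0

variable {X : Set (MvPolynomial (Fin n) (𝓞 K))} {d i N : ℕ}
  {B : HeightOneSpectrum (𝓞 K) → ℂ[X]}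

lemma norm_be_good {v : HeightOneSpectrum (𝓞 K)} (h : GoodV X d i N B v) (j : Fin N) :
    ‖be X d i N B v j‖ = 1 := by
  have h2 := Pool.Agent.TH339.MP.two_le_nm v
  have hq : (0 : ℝ) < nm v := by exact_mod_cast (by omega : 0 < nm v)
  unfold be
  rw [dif_pos h, norm_mul, norm_al h.choose_spec.1, Complex.norm_natCast_cpow_of_pos (by omega)]
  have : (-((i : ℂ) / 2)).re = -((i : ℝ) / 2) := by
    rw [Complex.neg_re]
    congr 1
    have h3 : ((i : ℂ) / 2) = (((i : ℝ) / 2 : ℝ) : ℂ) := by push_cast; rfl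
    rw [h3, Complex.ofReal_re]
  rw [this, ← Real.rpow_add hq]
  simp

lemma norm_be (X : Set (MvPolynomial (Fin n) (𝓞 K))) (d i N : ℕ)
    (B : HeightOneSpectrum (𝓞 K) → ℂ[X]) (v : HeightOneSpectrum (𝓞 K)) (j : Fin N) :
    ‖be X d i N B v j‖ ≤ 1 := by
  by_cases h : GoodV X d i N B v
  · exact (norm_be_good h j).le
  · unfold be
    rw [dif_neg h, norm_zero]
    exact zero_le_one

lemma factor_good {v : HeightOneSpectrum (𝓞 K)} (h : GoodV X d i N B v) (s : ℂ) :
    localFactor B v (s + (i : ℂ) / 2) =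
      ∏ j, (1 - be X d i N B v j * ((nm v : ℕ) : ℂ) ^ (-s))⁻¹ := by
  have h2 := Pool.Agent.TH339.MP.two_le_nm v
  have hq : (nm v : ℂ) ≠ 0 := Nat.cast_ne_zero.2 (by omega)
  unfold localFactor
  rw [h.choose_spec.2, Finset.prod_inv_distrib]
  congr 1
  refine Finset.prod_congr rfl fun j _ => ?_
  unfold be
  rw [dif_pos h]
  have h3 : ((Ideal.absNorm v.asIdeal : ℕ) : ℂ) ^ (-(s + (i : ℂ) / 2)) =
      (nm v : ℂ) ^ (-((i : ℂ) / 2)) * (nm v : ℂ) ^ (-s) := by
    rw [← Complex.cpow_add _ _ hq]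
    congr 1
    ring
  rw [h3]
  ring

/-- The bad primes. -/
noncomputable def bad (hB : IsEulerSystem X d i N B) : Finset (HeightOneSpectrum (𝓞 K)) :=
  (show {v | ¬ GoodV X d i N B v}.Finite from hB.1).toFinset

lemma good_of_notMem (hB : IsEulerSystem X d i N B) {v : HeightOneSpectrum (𝓞 K)}
    (hv : v ∉ bad hB) : GoodV X d i N B v := by
  by_contra h
  exact hv (by simpa [bad] using h)

lemma not_good_of_mem (hB : IsEulerSystem X d i N B) {v : HeightOneSpectrum (𝓞 K)}
    (hv : v ∈ bad hB) : ¬ GoodV X d i N B v := by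
  simpa [bad] using hv

/-- The Euler product. -/
theorem hasProd_LFun (hB : IsEulerSystem X d i N B) {s : ℂ} (hs : 1 < s.re) :
    HasProd (fun v => localFactor B v (s + (i : ℂ) / 2))
      ((∏ v ∈ bad hB, localFactor B v (s + (i : ℂ) / 2)) *
        Complex.exp (FF (bb (be X d i N B)) s)) := by
  classical
  have h3 := hasProd_L (norm_be X d i N B) hs
  have h4 : HasProd (fun v => if v ∈ bad hB then localFactor B v (s + (i : ℂ) / 2) else 1)
      (∏ v ∈ bad hB, localFactor B v (s + (i : ℂ) / 2)) := by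
    have h5 := hasProd_prod_of_ne_finset_one (L := SummationFilter.unconditional _)
      (s := bad hB) (f := fun v => if v ∈ bad hB then localFactor B v (s + (i : ℂ) / 2) else 1)
      (fun v hv => if_neg hv)
    have h6 : ∏ v ∈ bad hB, (if v ∈ bad hB then localFactor B v (s + (i : ℂ) / 2) else 1) =
        ∏ v ∈ bad hB, localFactor B v (s + (i : ℂ) / 2) :=
      Finset.prod_congr rfl fun v hv => if_pos hv
    rwa [h6] at h5
  have h5 := h4.mul h3
  convert h5 using 1
  funext v
  by_cases hv : v ∈ bad hB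
  · simp only [if_pos hv]
    have : ∀ j, be X d i N B v j = 0 := by
      intro j
      unfold be
      rw [dif_neg (not_good_of_mem hB hv)]
    simp [this]
  · simp only [if_neg hv, one_mul]
    exact factor_good (good_of_notMem hB hv) s

/-- The product of the polynomials at the bad primes. -/
noncomputable def DD (hB : IsEulerSystem X d i N B) (s : ℂ) : ℂ :=
  ∏ v ∈ bad hB, (B v).eval ((nm v : ℂ) ^ (-(s + (i : ℂ) / 2)))

theorem LFun_eq (hB : IsEulerSystem X d i N B) {s : ℂ} (hs : 1 < s.re) :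
    LFun B (s + (i : ℂ) / 2) = (DD hB s)⁻¹ * Complex.exp (FF (bb (be X d i N B)) s) := by
  have h1 := (hasProd_LFun hB hs).tprod_eq
  unfold LFun
  rw [h1]
  congr 1
  unfold DD
  rw [← Finset.prod_inv_distrib]
  rfl

lemma DD_analytic (hB : IsEulerSystem X d i N B) (s : ℂ) : AnalyticAt ℂ (DD hB) s := by
  unfold DD
  refine Finset.analyticAt_fun_prod _ fun v _ => ?_
  have h1 : AnalyticAt ℂ (fun s : ℂ => (nm v : ℂ) ^ (-(s + (i : ℂ) / 2))) s :=
    Pool.Agent.TH345.ET.analytic_cpow (Pool.Agent.TH339.MP.two_le_nm v) _ _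
      (analyticAt_id.add analyticAt_const).neg
  have h2 := AnalyticAt.aeval_polynomial (A := ℂ) h1 (B v)
  simpa [Polynomial.aeval_def, Polynomial.eval₂_eq_eval_map] using h2

/-- The function `D` vanishes only at countably many points. -/
lemma DD_countable (hB : IsEulerSystem X d i N B) : {s : ℂ | DD hB s = 0}.Countable := by
  have h1 : {s : ℂ | DD hB s = 0} ⊆ ⋃ v ∈ bad hB,
      {s : ℂ | (B v).eval ((nm v : ℂ) ^ (-(s + (i : ℂ) / 2))) = 0} := by
    intro s hs
    have h2 : DD hB s = 0 := hs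
    unfold DD at h2
    rw [Finset.prod_eq_zero_iff] at h2
    obtain ⟨v, hv, hv2⟩ := h2
    simp only [Set.mem_iUnion]
    exact ⟨v, hv, hv2⟩
  refine Set.Countable.mono h1 (Set.Countable.biUnion (Finset.countable_toSet _) fun v _ => ?_)
  have hr : ((B v).roots.toFinset : Set ℂ).Countable := (Finset.countable_toSet _)
  have h2 := Complex.countable_preimage_exp.2 hr
  have h3 := Pool.Agent.TH339.MP.two_le_nm v
  have hq : (nm v : ℂ) ≠ 0 := Nat.cast_ne_zero.2 (by omega)
  have hlog : Complex.log (nm v : ℂ) ≠ 0 := by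
    rw [← Complex.natCast_log]
    have : (0 : ℝ) < Real.log (nm v) := Real.log_pos (by exact_mod_cast (by omega : 1 < nm v))
    exact_mod_cast this.ne'
  have hinj : Function.Injective fun s : ℂ => Complex.log (nm v : ℂ) * (-(s + (i : ℂ) / 2)) := by
    intro x y hxy
    have h4 := mul_left_cancel₀ hlog hxy
    have h5 := neg_injective h4
    exact add_right_cancel h5
  refine (h2.preimage hinj).mono fun s hs => ?_
  have h5 : (B v).eval ((nm v : ℂ) ^ (-(s + (i : ℂ) / 2))) = 0 := hs
  simp only [Set.mem_preimage, SetLike.mem_coe, Multiset.mem_toFinset]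
  rw [Polynomial.mem_roots (hB.2 v).1, Polynomial.IsRoot.def, ← Complex.cpow_def_of_ne_zero hq]
  exact h5

lemma DD_line (hB : IsEulerSystem X d i N B) :
    {τ : ℝ | DD hB (Pool.Agent.TH345.ET.ep τ) = 0}.Countable := by
  have hinj : Function.Injective Pool.Agent.TH345.ET.ep := by
    intro x y hxy
    unfold Pool.Agent.TH345.ET.ep at hxy
    have h1 := mul_right_cancel₀ Complex.I_ne_zero (add_left_cancel hxy)
    exact_mod_cast h1
  exact (DD_countable hB).preimage hinj

end Pool.Agent.R409.EV
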