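import Pool.Agent.R409.EV.Datum
import Pool.Agent.R409.EV.Prod
import Pool.Agent.R409.EV.AlgInd

/-!
# Families of L-functions of varieties
-/

set_option autoImplicit false

namespace Pool.Agent.R409.EV

open NumberField IsDedekindDomain Filter Topology Polynomial MeasureTheory
open Pool.Agent.TH958.BV (IsFrobenius IsEulerSystem localFactor LFun edgePoint angle)
open Pool.Agent.TH339.MP (PP FF bb norm_bb hasProd_L nm pr dg Sp mem_Sp nm_eq pr_mem dg_pos lv
  hasSum_fiber exp_lv tm)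
open Pool.Agent.TH345.ET (ep)

section
variable {K : Type} [Field K] [NumberField K] {n : ℕ} {X : Set (MvPolynomial (Fin n) (𝓞 K))}
  {d i N : ℕ} {B : HeightOneSpectrum (𝓞 K) → ℂ[X]}

/-- the product of the bad polynomials as a polynomial in the `p^{-iτ}` -/
noncomputable def DDp (hB : IsEulerSystem X d i N B) : MvPolynomial (Option Nat.Primes) ℂ :=
  ∏ v ∈ bad hB, Polynomial.aeval (MvPolynomial.C ((nm v : ℂ) ^ (-(1 + (i : ℂ) / 2))) *
    MvPolynomial.X (some (pr v)) ^ dg v) (B v)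

lemma aeval_DDp (hB : IsEulerSystem X d i N B) (s : ℂ) :
    MvPolynomial.aeval (xs s) (DDp hB) = DD hB s := by
  unfold DDp DD
  rw [map_prod]
  refine Finset.prod_congr rfl fun v _ => ?_
  have h2 := Pool.Agent.TH339.MP.two_le_nm v
  have hq : (nm v : ℂ) ≠ 0 := Nat.cast_ne_zero.2 (by omega)
  have h1 : ∀ y : MvPolynomial (Option Nat.Primes) ℂ,
      MvPolynomial.aeval (xs s) (Polynomial.aeval y (B v)) =
        (B v).eval (MvPolynomial.aeval (xs s) y) := by
    intro y
    rw [← Polynomial.aeval_algHom_apply]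
    simp [Polynomial.aeval_def, Polynomial.eval₂_eq_eval_map]
  rw [h1]
  congr 1
  rw [map_mul, map_pow, MvPolynomial.aeval_X, MvPolynomial.aeval_C]
  have h3 : xs s (some (pr v)) ^ dg v = (nm v : ℂ) ^ (1 - s) := by
    unfold xs
    simp only [Option.elim]
    rw [nm_eq, Nat.cast_pow, ← Complex.cpow_nat_mul, ← Complex.natCast_cpow_natCast_mul]
  rw [h3]
  change (nm v : ℂ) ^ (-(1 + (i : ℂ) / 2)) * (nm v : ℂ) ^ (1 - s) = _
  rw [← Complex.cpow_add _ _ hq]
  congr 1
  ring

lemma DDp_ne (hB : IsEulerSystem X d i N B) : DDp hB ≠ 0 := by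
  intro h
  have h1 := DD_countable hB
  have h2 : {s : ℂ | DD hB s = 0} = Set.univ := by
    ext s
    simp only [Set.mem_ofPred_eq, Set.mem_univ, iff_true]
    rw [← aeval_DDp, h, map_zero]
  rw [h2] at h1
  exact not_countable_complex h1

lemma set_eq_Sp (p : Nat.Primes) :
    {v : HeightOneSpectrum (𝓞 K) | ((p : ℕ) : 𝓞 K) ∈ v.asIdeal} =
      (↑(Sp p : Finset (HeightOneSpectrum (𝓞 K))) : Set _) := by
  ext v
  simp only [Set.mem_ofPred_eq, SetLike.mem_coe, mem_Sp]
  constructor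
  · intro h
    by_contra hne
    have h1 := pr_mem v
    have hcop : Nat.Coprime (p : ℕ) (pr v : ℕ) := (Nat.coprime_primes p.2 (pr v).2).2 fun h2 =>
      hne (Subtype.ext h2).symm
    have h2 : IsCoprime ((p : ℕ) : ℤ) ((pr v : ℕ) : ℤ) := Nat.isCoprime_iff_coprime.2 hcop
    obtain ⟨a, c, hac⟩ := h2
    apply v.isPrime.ne_top
    rw [Ideal.eq_top_iff_one]
    have h3 : (1 : 𝓞 K) = (a : 𝓞 K) * ((p : ℕ) : 𝓞 K) + (c : 𝓞 K) * ((pr v : ℕ) : 𝓞 K) := by
      have := congrArg (fun z : ℤ => (z : 𝓞 K)) hac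
      push_cast at this
      exact this.symm
    rw [h3]
    exact Ideal.add_mem _ (Ideal.mul_mem_left _ _ h) (Ideal.mul_mem_left _ _ h1)
  · intro h
    rw [← h]
    exact pr_mem v

/-- the part at `p` of the logarithm -/
lemma local_exp {p : Nat.Primes} (hgood : ∀ v : HeightOneSpectrum (𝓞 K), pr v = p →
    GoodV X d i N B v) {s : ℂ} (hs : 1 ≤ s.re) :
    ∏ᶠ v ∈ {v : HeightOneSpectrum (𝓞 K) | ((p : ℕ) : 𝓞 K) ∈ v.asIdeal},
      localFactor B v (s + (i : ℂ) / 2) =
        Complex.exp (∑' k, tm (bb (be X d i N B)) s (p, k)) := by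
  rw [set_eq_Sp, finprod_mem_coe_finset, (hasSum_fiber (norm_be X d i N B) p hs).tsum_eq,
    Complex.exp_sum]
  refine Finset.prod_congr rfl fun v hv => ?_
  rw [mem_Sp] at hv
  rw [factor_good (hgood v hv), exp_lv (norm_be X d i N B) v hs]

end

/-- the coefficients -/
noncomputable def bV (V : Datum) : PP → ℂ := bb (be V.X V.d V.i V.N V.B)

lemma bV_bound (V : Datum) (x : PP) :
    ‖bV V x‖ ≤ ((Module.finrank ℚ V.K : ℝ) * V.N) / (x.2 + 1 : ℕ) :=
  norm_bb (norm_be V.X V.d V.i V.N V.B) x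

/-- the bad prime numbers -/
noncomputable def badp (V : Datum) : Finset Nat.Primes := (bad V.isEulerSystem).image pr

lemma factorAt_eq (V : Datum) {p : Nat.Primes} (hp : p ∉ badp V) {s : ℂ} (hs : 1 ≤ s.re) :
    factorAt V p s = Complex.exp (∑' k, tm (bV V) s (p, k)) := by
  refine local_exp (fun v hv => ?_) hs
  refine good_of_notMem V.isEulerSystem fun h => hp ?_
  rw [badp, Finset.mem_image]
  exact ⟨v, h, hv⟩

lemma summable_at (V : Datum) (p : Nat.Primes) {s : ℂ} (hs : 1 ≤ s.re) :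
    Summable fun k => tm (bV V) s (p, k) :=
  (hasSum_fiber (norm_be V.X V.d V.i V.N V.B) p hs).summable

/-- multiplicative independence in terms of the coefficients -/
lemma ind_of_multIndep {J : Type} {V : J → Datum} (h : MultIndep V) (e : J →₀ ℤ) (he : e ≠ 0) :
    {p : Nat.Primes | ∃ k : ℕ, (e.sum fun j m => (m : ℂ) * bV (V j) (p, k)) ≠ 0}.Infinite := by
  classical
  have hfin : (↑(e.support.biUnion fun j => badp (V j)) : Set Nat.Primes).Finite :=
    Finset.finite_toSet _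
  refine ((h e he).sdiff hfin).mono ?_
  rintro p ⟨⟨s, hs, hne⟩, hp⟩
  by_contra hcon
  simp only [Set.mem_ofPred_eq, not_exists, not_not] at hcon
  apply hne
  have hp' : ∀ j ∈ e.support, p ∉ badp (V j) := by
    intro j hj hb
    exact hp (Finset.mem_coe.2 (Finset.mem_biUnion.2 ⟨j, hj, hb⟩))
  unfold Finsupp.prod
  have h1 : ∀ j ∈ e.support, factorAt (V j) p s ^ e j =
      Complex.exp ((e j : ℂ) * ∑' k, tm (bV (V j)) s (p, k)) := by
    intro j hj
    rw [factorAt_eq (V j) (hp' j hj) hs.le, ← Complex.exp_int_mul]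
  rw [Finset.prod_congr rfl h1, ← Complex.exp_sum]
  have h2 := hasSum_sum (s := e.support) fun j _ =>
    ((summable_at (V j) p hs.le).hasSum.mul_left ((e j : ℤ) : ℂ))
  have h3 : (fun k => ∑ j ∈ e.support, ((e j : ℤ) : ℂ) * tm (bV (V j)) s (p, k)) = fun _ => 0 := by
    funext k
    have h4 := hcon k
    unfold Finsupp.sum at h4
    unfold Pool.Agent.TH339.MP.tm
    simp_rw [← mul_assoc]
    rw [← Finset.sum_mul, h4, zero_mul]
  rw [h3] at h2
  rw [h2.unique hasSum_zero, Complex.exp_zero]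

/-- a single L-function -/
theorem multIndep_single (V : Datum) (hN : 0 < V.N) : MultIndep (fun _ : Unit => V) := by
  classical
  intro e he
  have he0 : e () ≠ 0 := by
    intro h
    apply he
    ext u
    exact h
  have hinf : (Set.univ \ (↑(badp V) : Set Nat.Primes)).Infinite :=
    Set.Infinite.sdiff Set.infinite_univ (Finset.finite_toSet _)
  refine hinf.mono ?_
  rintro p ⟨_, hp⟩
  have hp' : p ∉ badp V := fun h => hp (Finset.mem_coe.2 h)
  have hgood : ∀ v : HeightOneSpectrum (𝓞 V.K), pr v = p → GoodV V.X V.d V.i V.N V.B v := by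
    intro v hv
    refine good_of_notMem V.isEulerSystem fun h => hp' ?_
    rw [badp, Finset.mem_image]
    exact ⟨v, h, hv⟩
  by_contra hcon
  simp only [Set.mem_ofPred_eq, not_exists, not_and, not_not] at hcon
  -- a prime above `p`
  obtain ⟨v₀, hv₀⟩ : ∃ v : HeightOneSpectrum (𝓞 V.K), pr v = p := by
    have hne : Ideal.span {((p : ℕ) : 𝓞 V.K)} ≠ ⊤ := by
      rw [Ne, Ideal.span_singleton_eq_top]
      intro hu
      have h1 : Algebra.norm ℤ ((p : ℕ) : 𝓞 V.K) = ((p : ℕ) : ℤ) ^ Module.finrank ℤ (𝓞 V.K) := by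
        have := Algebra.norm_algebraMap_of_basis
          (NumberField.RingOfIntegers.basis V.K) ((p : ℕ) : ℤ)
        rw [← Module.finrank_eq_card_basis (NumberField.RingOfIntegers.basis V.K)] at this
        rw [← this]
        simp
      have h2 := hu.map (Algebra.norm ℤ : 𝓞 V.K →* ℤ)
      rw [h1, Int.isUnit_iff_natAbs_eq, Int.natAbs_pow, Int.natAbs_natCast,
        NumberField.RingOfIntegers.rank] at h2
      have h3 : 1 < (p : ℕ) ^ Module.finrank ℚ V.K :=
        Nat.one_lt_pow (Module.finrank_pos (R := ℚ) (M := V.K)).ne' p.2.one_lt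
      omega
    obtain ⟨m, hm, hle⟩ := Ideal.exists_le_maximal _ hne
    have hmem : ((p : ℕ) : 𝓞 V.K) ∈ m := hle (Ideal.mem_span_singleton_self _)
    have hbot : m ≠ ⊥ := by
      rintro rfl
      rw [Ideal.mem_bot] at hmem
      exact p.2.ne_zero (by exact_mod_cast hmem)
    refine ⟨⟨m, hm.isPrime, hbot⟩, ?_⟩
    have h1 : (⟨m, hm.isPrime, hbot⟩ : HeightOneSpectrum (𝓞 V.K)) ∈
        {v : HeightOneSpectrum (𝓞 V.K) | ((p : ℕ) : 𝓞 V.K) ∈ v.asIdeal} := hmem
    rw [set_eq_Sp] at h1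
    exact (mem_Sp p _).1 (Finset.mem_coe.1 h1)
  -- the polynomial
  set Q : ℂ[X] := ∏ v ∈ (Sp p : Finset (HeightOneSpectrum (𝓞 V.K))),
    ∏ j : Fin V.N, (1 - Polynomial.C (be V.X V.d V.i V.N V.B v j) * Polynomial.X ^ dg v) with hQ
  have hQe : ∀ s : ℂ, factorAt V p s = (Q.eval (((p : ℕ) : ℂ) ^ (-s)))⁻¹ := by
    intro s
    unfold factorAt
    rw [set_eq_Sp, finprod_mem_coe_finset, hQ, Polynomial.eval_prod, ← Finset.prod_inv_distrib]
    refine Finset.prod_congr rfl fun v hv => ?_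
    rw [mem_Sp] at hv
    rw [factor_good (hgood v hv), Polynomial.eval_prod, ← Finset.prod_inv_distrib]
    refine Finset.prod_congr rfl fun j _ => ?_
    rw [Pool.Agent.TH339.MP.nm_cpow, hv]
    simp
  have hpow : Q ^ (e ()).natAbs = 1 := by
    refine Polynomial.eq_of_infinite_eval_eq _ _ ?_
    refine Set.Infinite.mono (s := (fun x : ℝ => (((p : ℕ) : ℂ) ^ (-(x : ℂ)))) '' Set.Ioi 1) ?_ ?_
    · rintro _ ⟨x, hx, rfl⟩
      have h1 := hcon (x : ℂ) (by simpa using hx)
      have h2 : (e.prod fun (j : Unit) m => factorAt V p (x : ℂ) ^ m) =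
          factorAt V p (x : ℂ) ^ (e ()) := by
        rw [Finsupp.prod_fintype _ _ (fun _ => zpow_zero _)]
        simp
      rw [h2, hQe] at h1
      change Polynomial.eval _ _ = Polynomial.eval _ _
      rw [Polynomial.eval_pow, Polynomial.eval_one]
      rcases Int.natAbs_eq (e ()) with h3 | h3
      · rw [h3, zpow_natCast, inv_pow, inv_eq_one] at h1
        exact h1
      · rw [h3, zpow_neg, zpow_natCast, inv_pow, inv_inv] at h1
        exact h1
    · refine (Set.Ioi_infinite (1 : ℝ)).image ?_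
      intro x _ y _ hxy
      simp only at hxy
      have h1 := congrArg norm hxy
      rw [Complex.norm_natCast_cpow_of_pos p.2.pos, Complex.norm_natCast_cpow_of_pos p.2.pos,
        Complex.neg_re, Complex.neg_re, Complex.ofReal_re, Complex.ofReal_re] at h1
      have hp1 : (1 : ℝ) < (p : ℕ) := by exact_mod_cast p.2.one_lt
      have h2 := (Real.rpow_right_inj (by linarith) hp1.ne').1 h1
      linarith
  -- a root
  have hv₀m : v₀ ∈ (Sp p : Finset (HeightOneSpectrum (𝓞 V.K))) := (mem_Sp p v₀).2 hv₀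
  have hbne : be V.X V.d V.i V.N V.B v₀ ⟨0, hN⟩ ≠ 0 := by
    rw [← norm_ne_zero_iff, norm_be_good (hgood v₀ hv₀)]
    exact one_ne_zero
  obtain ⟨w, hw⟩ := IsAlgClosed.exists_pow_nat_eq (be V.X V.d V.i V.N V.B v₀ ⟨0, hN⟩)⁻¹
    (dg_pos v₀)
  have hQw : Q.eval w = 0 := by
    rw [hQ, Polynomial.eval_prod]
    refine Finset.prod_eq_zero hv₀m ?_
    rw [Polynomial.eval_prod]
    refine Finset.prod_eq_zero (Finset.mem_univ ⟨0, hN⟩) ?_
    simp [hw, hbne]
  have h1 := congrArg (Polynomial.eval w) hpow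
  rw [Polynomial.eval_pow, hQw, Polynomial.eval_one, zero_pow (Int.natAbs_ne_zero.2 he0)] at h1
  exact zero_ne_one h1

end Pool.Agent.R409.EV
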