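import Pool.Agent.R409.EV.Coef
import Pool.Agent.TH339.MP.U3

/-!
# The coefficients of the exponential of a Dirichlet series over the prime powers
-/

set_option autoImplicit false

namespace Pool.Agent.R409.EV

open Filter Topology LSeries
open Pool.Agent.TH339.MP (PP FF aco aco_zero aco_qq qq qq_injective hasSum_aco tm two_le_qq
  differentiableOn_FF M_nonneg)

/-- the support of the exponential -/
lemma ex_support {f : ArithmeticFunction ℂ} {P : ℕ → Prop} (h1 : P 1)
    (hmul : ∀ a b, P a → P b → P (a * b)) (hf : ∀ n, f n ≠ 0 → P n) {n : ℕ} (hn : ¬ P n) :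
    ex f n = 0 := by
  have hp : ∀ m : ℕ, ∀ n, (f ^ m : ArithmeticFunction ℂ) n ≠ 0 → P n := by
    intro m
    induction m with
    | zero =>
      intro n h
      rw [pow_zero] at h
      by_cases h2 : n = 1
      · rw [h2]
        exact h1
      · exact absurd (ArithmeticFunction.one_apply_ne h2) h
    | succ m ih =>
      intro n h
      rw [pow_succ, ArithmeticFunction.mul_apply] at h
      obtain ⟨⟨d, e⟩, hde, hne⟩ := Finset.exists_ne_zero_of_sum_ne_zero h
      rw [Nat.mem_divisorsAntidiagonal] at hde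
      rw [← hde.1]
      exact hmul _ _ (ih d (left_ne_zero_of_mul hne)) (hf e (right_ne_zero_of_mul hne))
  unfold ex
  have h2 : ∀ m : ℕ, (f ^ m : ArithmeticFunction ℂ) n / (m.factorial : ℂ) = 0 := by
    intro m
    have : (f ^ m : ArithmeticFunction ℂ) n = 0 := by
      by_contra h
      exact hn (hp m n h)
    rw [this, zero_div]
  simp [h2]

lemma ex_one {f : ArithmeticFunction ℂ} (hf : f 1 = 0) : ex f 1 = 1 := by
  unfold ex
  have h2 : ∀ m : ℕ, (f ^ m : ArithmeticFunction ℂ) 1 / (m.factorial : ℂ) = if m = 0 then 1 else 0 := by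
    intro m
    rcases m with _ | m
    · simp
    · rw [if_neg (Nat.succ_ne_zero m), pow_succ, ArithmeticFunction.mul_apply]
      simp [hf]
  simp_rw [h2]
  rw [tsum_ite_eq]

/-- the coefficients as an arithmetic function -/
noncomputable def al (b : PP → ℂ) : ArithmeticFunction ℂ := ⟨aco b, aco_zero b⟩

lemma al_qq (b : PP → ℂ) (x : PP) : al b (qq x) = b x := aco_qq b x

lemma al_ne {b : PP → ℂ} {n : ℕ} (h : al b n ≠ 0) : ∃ x, qq x = n ∧ b x ≠ 0 := by
  by_cases hx : ∃ x, qq x = n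
  · obtain ⟨x, rfl⟩ := hx
    rw [al_qq] at h
    exact ⟨x, rfl, h⟩
  · exfalso
    apply h
    change aco b n = 0
    unfold Pool.Agent.TH339.MP.aco
    rw [dif_neg hx]

lemma al_one (b : PP → ℂ) : al b 1 = 0 := by
  by_contra h
  obtain ⟨x, hx, _⟩ := al_ne h
  have := two_le_qq x
  omega

/-- the coefficients of the Euler product -/
noncomputable def fc (b : PP → ℂ) : ℕ → ℂ := ex (al b)

lemma fc_one (b : PP → ℂ) : fc b 1 = 1 := ex_one (al_one b)

section
variable {b b' : PP → ℂ} {M M' : ℝ}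

lemma LSeriesHasSum_al (hb : ∀ x, ‖b x‖ ≤ M / (x.2 + 1 : ℕ)) {s : ℂ} (hs : 1 < s.re) :
    LSeriesHasSum (al b) s (FF b s) := hasSum_aco hb hs

/-- the Dirichlet series of the Euler product -/
lemma hasSum_fc (hb : ∀ x, ‖b x‖ ≤ M / (x.2 + 1 : ℕ)) {s : ℂ} (hs : 1 < s.re) :
    LSeriesHasSum (fc b) s (Complex.exp (FF b s)) := by
  have h1 := LSeriesHasSum_al hb hs
  have h2 := hasSum_ex (al b) s h1.LSeriesSummable
  rwa [h1.LSeries_eq] at h2

lemma absc (f : ℕ → ℂ) (h : ∀ s : ℂ, 1 < s.re → LSeriesSummable f s) :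
    LSeries.abscissaOfAbsConv f < ⊤ := by
  have h1 : LSeriesSummable f ((2 : ℝ) : ℂ) := h _ (by simp)
  exact lt_of_le_of_lt h1.abscissaOfAbsConv_le (EReal.coe_lt_top _)

/-- two Dirichlet series that agree have the same coefficients -/
lemma coef_eq {f g : ℕ → ℂ} (hf : ∀ s : ℂ, 1 < s.re → LSeriesSummable f s)
    (hg : ∀ s : ℂ, 1 < s.re → LSeriesSummable g s)
    (h : ∀ s : ℂ, 1 < s.re → LSeries f s = LSeries g s) {n : ℕ} (hn : n ≠ 0) : f n = g n := by
  refine LSeries.eq_of_LSeries_eventually_eq (absc f hf) (absc g hg) ?_ hn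
  filter_upwards [eventually_gt_atTop 1] with x hx
  exact h _ (by simpa using hx)

/-- the exponential is injective -/
theorem exp_inj (hb : ∀ x, ‖b x‖ ≤ M / (x.2 + 1 : ℕ)) (hb' : ∀ x, ‖b' x‖ ≤ M' / (x.2 + 1 : ℕ))
    (h : ∀ s : ℂ, 1 < s.re → Complex.exp (FF b s) = Complex.exp (FF b' s)) : b = b' := by
  set G : ℂ → ℂ := fun s => FF b s - FF b' s with hG
  have hV : IsOpen {s : ℂ | 1 < s.re} := isOpen_lt continuous_const Complex.continuous_re
  have hGd : DifferentiableOn ℂ G {s : ℂ | 1 < s.re} :=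
    (differentiableOn_FF hb).sub (differentiableOn_FF hb')
  have hexp : ∀ s : ℂ, 1 < s.re → Complex.exp (G s) = 1 := by
    intro s hs
    simp only [hG]
    rw [Complex.exp_sub, h s hs, div_self (Complex.exp_ne_zero _)]
  have hder : Set.EqOn (deriv G) 0 {s : ℂ | 1 < s.re} := by
    intro s hs
    have h1 : HasDerivAt G (deriv G s) s :=
      ((hGd.differentiableAt (hV.mem_nhds hs))).hasDerivAt
    have h2 := h1.cexp
    have h3 : (fun s => Complex.exp (G s)) =ᶠ[𝓝 s] fun _ => 1 := by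
      filter_upwards [hV.mem_nhds hs] with z hz
      exact hexp z hz
    have h4 := h2.congr_of_eventuallyEq h3.symm
    have h5 := h4.unique (hasDerivAt_const s (1 : ℂ))
    exact (mul_eq_zero.1 h5).resolve_left (Complex.exp_ne_zero _)
  obtain ⟨c, hc⟩ := hV.exists_is_const_of_deriv_eq_zero
    (convex_halfSpace_re_gt 1).isPreconnected hGd hder
  -- the coefficients
  have h1 : ∀ s : ℂ, 1 < s.re → LSeriesHasSum (al b) s (FF b s) := fun s hs =>
    LSeriesHasSum_al hb hs
  have h2 : ∀ s : ℂ, 1 < s.re →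
      LSeriesHasSum (⇑(al b') + c • LSeries.delta) s (FF b' s + c) := by
    intro s hs
    refine (LSeriesHasSum_al hb' hs).add ?_
    have h3 : LSeriesHasSum LSeries.delta s 1 := by
      unfold LSeriesHasSum
      have h4 : term LSeries.delta s = fun n => if n = 1 then (1 : ℂ) else 0 :=
        funext fun n => LSeries.term_delta s n
      rw [h4]
      exact hasSum_ite_eq 1 (1 : ℂ)
    have h4 := h3.smul c
    rwa [mul_one] at h4
  funext x
  have hq2 := two_le_qq x
  have hq : qq x ≠ 0 := by omega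
  have hq1 : qq x ≠ 1 := by omega
  have h3 := coef_eq (f := al b) (g := ⇑(al b') + c • LSeries.delta)
    (fun s hs => (h1 s hs).LSeriesSummable) (fun s hs => (h2 s hs).LSeriesSummable)
    (fun s hs => by
      rw [(h1 s hs).LSeries_eq, (h2 s hs).LSeries_eq]
      have := hc s hs
      simp only [hG] at this
      linear_combination this) hq
  rw [al_qq] at h3
  rw [h3, Pi.add_apply, al_qq, Pi.smul_apply, LSeries.delta, if_neg hq1, smul_zero, add_zero]

/-- the part at `p` and the part away from `p` -/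
noncomputable def at' (p : Nat.Primes) (b : PP → ℂ) (x : PP) : ℂ := by
  classical exact if x.1 = p then b x else 0

noncomputable def away (p : Nat.Primes) (b : PP → ℂ) (x : PP) : ℂ := by
  classical exact if x.1 = p then 0 else b x

lemma at_bound (p : Nat.Primes) (hb : ∀ x, ‖b x‖ ≤ M / (x.2 + 1 : ℕ)) (x : PP) :
    ‖at' p b x‖ ≤ M / (x.2 + 1 : ℕ) := by
  unfold at'
  split_ifs
  · exact hb x
  · rw [norm_zero]
    exact (norm_nonneg _).trans (hb x)

lemma away_bound (p : Nat.Primes) (hb : ∀ x, ‖b x‖ ≤ M / (x.2 + 1 : ℕ)) (x : PP) :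
    ‖away p b x‖ ≤ M / (x.2 + 1 : ℕ) := by
  unfold away
  split_ifs
  · rw [norm_zero]
    exact (norm_nonneg _).trans (hb x)
  · exact hb x

lemma FF_split (p : Nat.Primes) (hb : ∀ x, ‖b x‖ ≤ M / (x.2 + 1 : ℕ)) {s : ℂ} (hs : 1 < s.re) :
    FF b s = FF (away p b) s + FF (at' p b) s := by
  have h1 := (Pool.Agent.TH339.MP.summable_tm (away_bound p hb) hs).hasSum.add
    (Pool.Agent.TH339.MP.summable_tm (at_bound p hb) hs).hasSum
  have h2 : (fun x => tm (away p b) s x + tm (at' p b) s x) = tm b s := by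
    funext x
    unfold Pool.Agent.TH339.MP.tm away at'
    split_ifs <;> ring
  rw [h2] at h1
  exact h1.tsum_eq

lemma fc_split (p : Nat.Primes) (hb : ∀ x, ‖b x‖ ≤ M / (x.2 + 1 : ℕ)) {n : ℕ} (hn : n ≠ 0) :
    fc b n = (LSeries.convolution (fc (away p b)) (fc (at' p b))) n := by
  have h1 : ∀ s : ℂ, 1 < s.re → LSeriesHasSum (LSeries.convolution (fc (away p b)) (fc (at' p b))) s
      (Complex.exp (FF b s)) := by
    intro s hs
    rw [FF_split p hb hs, Complex.exp_add]
    exact (hasSum_fc (away_bound p hb) hs).convolution (hasSum_fc (at_bound p hb) hs)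
  exact coef_eq (fun s hs => (hasSum_fc hb hs).LSeriesSummable)
    (fun s hs => (h1 s hs).LSeriesSummable)
    (fun s hs => by rw [(hasSum_fc hb hs).LSeries_eq, (h1 s hs).LSeries_eq]) hn

lemma fc_away_zero (p : Nat.Primes) {n : ℕ} (hn : (p : ℕ) ∣ n) : fc (away p b) n = 0 := by
  refine ex_support (P := fun n => ¬ (p : ℕ) ∣ n) ?_ ?_ ?_ (by simpa using hn)
  · intro h
    exact p.2.one_lt.ne' (Nat.dvd_one.1 h)
  · intro a b ha hb h
    rcases p.2.dvd_mul.1 h with h | h
    · exact ha h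
    · exact hb h
  · intro n hn h
    obtain ⟨x, rfl, hx⟩ := al_ne hn
    unfold away at hx
    rw [ite_ne_left_iff] at hx
    apply hx.1
    unfold Pool.Agent.TH339.MP.qq at h
    have h2 := p.2.dvd_of_dvd_pow h
    exact (Subtype.ext ((Nat.prime_dvd_prime_iff_eq p.2 x.1.2).1 h2)).symm

lemma fc_at_zero (p : Nat.Primes) {n : ℕ} (hn : ∀ k, n ≠ (p : ℕ) ^ k) : fc (at' p b) n = 0 := by
  refine ex_support (P := fun n => ∃ k, n = (p : ℕ) ^ k) ⟨0, by simp⟩ ?_ ?_ (by simpa using hn)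
  · rintro a b ⟨k, rfl⟩ ⟨l, rfl⟩
    exact ⟨k + l, (pow_add _ _ _).symm⟩
  · intro n hn
    obtain ⟨x, rfl, hx⟩ := al_ne hn
    unfold at' at hx
    rw [ite_ne_right_iff] at hx
    unfold Pool.Agent.TH339.MP.qq
    exact ⟨x.2 + 1, by rw [hx.1]⟩

/-- **Multiplicativity.** -/
lemma fc_sep (p : Nat.Primes) (hb : ∀ x, ‖b x‖ ≤ M / (x.2 + 1 : ℕ)) {n : ℕ} (hn : ¬ (p : ℕ) ∣ n)
    (k : ℕ) : fc b (n * (p : ℕ) ^ k) = fc (away p b) n * fc (at' p b) ((p : ℕ) ^ k) := by
  have hn0 : n ≠ 0 := by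
    rintro rfl
    exact hn (dvd_zero _)
  have hp0 : (p : ℕ) ^ k ≠ 0 := pow_ne_zero _ p.2.ne_zero
  rw [fc_split p hb (mul_ne_zero hn0 hp0), convolution_def]
  simp only
  rw [Finset.sum_eq_single (n, (p : ℕ) ^ k)]
  · rintro ⟨d, e⟩ hde hne
    rw [Nat.mem_divisorsAntidiagonal] at hde
    by_contra h
    have hd : ¬ (p : ℕ) ∣ d := fun h2 => left_ne_zero_of_mul h (fc_away_zero p h2)
    have he : ∃ j, e = (p : ℕ) ^ j := by
      by_contra h2
      push Not at h2
      exact right_ne_zero_of_mul h (fc_at_zero p h2)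
    obtain ⟨j, rfl⟩ := he
    apply hne
    have h3 : d * (p : ℕ) ^ j = n * (p : ℕ) ^ k := hde.1
    have h4 : j = k := by
      have e1 : (d * (p : ℕ) ^ j).factorization (p : ℕ) =
        (n * (p : ℕ) ^ k).factorization (p : ℕ) := by rw [h3]
      rw [Nat.factorization_mul (by rintro rfl; exact hd (dvd_zero _))
        (pow_ne_zero _ p.2.ne_zero), Nat.factorization_mul hn0 hp0] at e1
      simp only [Finsupp.add_apply, Nat.factorization_pow, Finsupp.smul_apply,
        p.2.factorization_self, smul_eq_mul, mul_one,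
        Nat.factorization_eq_zero_of_not_dvd hd, Nat.factorization_eq_zero_of_not_dvd hn,
        zero_add] at e1
      exact e1
    subst h4
    rw [Nat.eq_of_mul_eq_mul_right (pow_pos p.2.pos j) h3]
  · intro h
    exact absurd (Nat.mem_divisorsAntidiagonal.2 ⟨rfl, mul_ne_zero hn0 hp0⟩) h

lemma fc_away (p : Nat.Primes) (hb : ∀ x, ‖b x‖ ≤ M / (x.2 + 1 : ℕ)) {n : ℕ}
    (hn : ¬ (p : ℕ) ∣ n) : fc b n = fc (away p b) n := by
  have h1 := fc_sep p hb hn 0
  rwa [pow_zero, mul_one, fc_one, mul_one] at h1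

lemma fc_at (p : Nat.Primes) (hb : ∀ x, ‖b x‖ ≤ M / (x.2 + 1 : ℕ)) (k : ℕ) :
    fc b ((p : ℕ) ^ k) = fc (at' p b) ((p : ℕ) ^ k) := by
  have h1 := fc_sep p hb (n := 1) (fun h => p.2.one_lt.ne' (Nat.dvd_one.1 h)) k
  rwa [one_mul, fc_one, one_mul] at h1

/-- **Multiplicativity.** -/
theorem fc_mul (p : Nat.Primes) (hb : ∀ x, ‖b x‖ ≤ M / (x.2 + 1 : ℕ)) {n : ℕ}
    (hn : ¬ (p : ℕ) ∣ n) (k : ℕ) : fc b (n * (p : ℕ) ^ k) = fc b n * fc b ((p : ℕ) ^ k) := by
  rw [fc_sep p hb hn k, fc_away p hb hn, fc_at p hb k]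

/-- the coefficients at the powers of `p` determine the part at `p` -/
theorem fc_inj (p : Nat.Primes) (hb : ∀ x, ‖b x‖ ≤ M / (x.2 + 1 : ℕ))
    (hb' : ∀ x, ‖b' x‖ ≤ M' / (x.2 + 1 : ℕ)) (h : ∀ k, fc b ((p : ℕ) ^ k) = fc b' ((p : ℕ) ^ k))
    (k : ℕ) : b (p, k) = b' (p, k) := by
  have h1 : ∀ n, n ≠ 0 → fc (at' p b) n = fc (at' p b') n := by
    intro n hn
    by_cases hk : ∃ k, n = (p : ℕ) ^ k
    · obtain ⟨k, rfl⟩ := hk
      rw [← fc_at p hb, ← fc_at p hb', h]
    · push Not at hk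
      rw [fc_at_zero p hk, fc_at_zero p hk]
  have h2 : at' p b = at' p b' := by
    refine exp_inj (at_bound p hb) (at_bound p hb') fun s hs => ?_
    have e1 := hasSum_fc (at_bound p hb) hs
    have e2 := hasSum_fc (at_bound p hb') hs
    rw [← e1.LSeries_eq, ← e2.LSeries_eq]
    exact LSeries_congr (fun {n} hn => h1 n hn) s
  have h3 := congrFun h2 (p, k)
  unfold at' at h3
  simpa using h3

end

end Pool.Agent.R409.EV
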