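import Pool.Agent.R409.EV.Lin
import Pool.Agent.R409.EV.Elim
import Pool.Agent.R409.EV.Sep

/-!
# Linear independence of Euler products over the ring generated by `s` and the `n^{-s}`
-/

set_option autoImplicit false

namespace Pool.Agent.R409.EV

open Finset Filter Topology LSeries
open Pool.Agent.TH339.MP (PP FF)

/-- At `s = 1 + iτ` the values are `τ` and `p^{-iτ}`. -/
noncomputable def xs (s : ℂ) (o : Option Nat.Primes) : ℂ :=
  o.elim (-Complex.I * (s - 1)) fun p => ((p : ℕ) : ℂ) ^ (1 - s)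

/-- the integer of a monomial -/
noncomputable def nn (d : Option Nat.Primes →₀ ℕ) : ℕ := d.some.prod fun p k => (p : ℕ) ^ k

lemma nn_ne (d : Option Nat.Primes →₀ ℕ) : nn d ≠ 0 := by
  unfold nn Finsupp.prod
  exact prod_ne_zero_iff.2 fun p _ => pow_ne_zero _ p.2.ne_zero

lemma nn_inj {d d' : Option Nat.Primes →₀ ℕ} (h0 : d none = d' none) (h : nn d = nn d') :
    d = d' := by
  have key : ∀ d : Option Nat.Primes →₀ ℕ, ∀ p : Nat.Primes,
      (nn d).factorization (p : ℕ) = d (some p) := by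
    intro d p
    unfold nn Finsupp.prod
    rw [Nat.factorization_prod_apply fun q _ => pow_ne_zero _ q.2.ne_zero]
    by_cases hp : p ∈ d.some.support
    · rw [sum_eq_single p]
      · rw [Nat.factorization_pow, Finsupp.smul_apply, p.2.factorization_self, smul_eq_mul,
          mul_one, Finsupp.some_apply]
      · intro q _ hq
        rw [Nat.factorization_pow, Finsupp.smul_apply,
          Nat.factorization_eq_zero_of_not_dvd, smul_zero]
        intro hd
        exact hq (Subtype.ext ((Nat.prime_dvd_prime_iff_eq p.2 q.2).1 hd).symm)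
      · intro hcon
        exact absurd hp hcon
    · rw [sum_eq_zero]
      · rw [Finsupp.notMem_support_iff, Finsupp.some_apply] at hp
        exact hp.symm
      · intro q hq
        rw [Nat.factorization_pow, Finsupp.smul_apply,
          Nat.factorization_eq_zero_of_not_dvd, smul_zero]
        intro hd
        apply hp
        rwa [Subtype.ext ((Nat.prime_dvd_prime_iff_eq p.2 q.2).1 hd)]
  ext o
  rcases o with _ | p
  · exact h0
  · rw [← key, ← key, h]

lemma natCast_prod_cpow {α : Type*} (s : Finset α) (f : α → ℕ) (z : ℂ) :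
    ((∏ i ∈ s, f i : ℕ) : ℂ) ^ z = ∏ i ∈ s, ((f i : ℕ) : ℂ) ^ z := by
  classical
  induction s using Finset.induction_on with
  | empty => simp
  | insert a s ha ih =>
    rw [prod_insert ha, prod_insert ha, Nat.cast_mul, Complex.natCast_mul_natCast_cpow, ih]

lemma xs_prod (s : ℂ) (d : Option Nat.Primes →₀ ℕ) :
    (d.prod fun o k => xs s o ^ k) =
      (-Complex.I * (s - 1)) ^ (d none) * ((nn d : ℕ) : ℂ) ^ (1 - s) := by
  rw [Finsupp.prod_option_index _ _ (fun o => pow_zero _) (fun o m₁ m₂ => pow_add _ _ _)]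
  congr 1
  unfold nn Finsupp.prod
  rw [natCast_prod_cpow]
  refine prod_congr rfl fun p _ => ?_
  unfold xs
  simp only [Option.elim]
  rw [Nat.cast_pow, ← Complex.cpow_nat_mul, ← Complex.natCast_cpow_natCast_mul]

/-- a sequence with one nonzero term -/
noncomputable def sg (n : ℕ) (c : ℂ) (m : ℕ) : ℂ := if m = n then c else 0

lemma hasSum_sg {n : ℕ} (hn : n ≠ 0) (c s : ℂ) : LSeriesHasSum (sg n c) s (c * (n : ℂ) ^ (-s)) := by
  unfold LSeriesHasSum
  have h1 : term (sg n c) s = fun m => if m = n then c * (n : ℂ) ^ (-s) else 0 := by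
    funext m
    by_cases h0 : m = 0
    · subst h0
      rw [term_zero, if_neg (Ne.symm hn)]
    · rw [term_of_ne_zero h0]
      unfold sg
      by_cases h : m = n
      · subst h
        rw [if_pos rfl, if_pos rfl, Complex.cpow_neg, div_eq_mul_inv]
      · rw [if_neg h, if_neg h, zero_div]
  rw [h1]
  exact hasSum_ite_eq n _

/-- the coefficients of the Dirichlet polynomial at the `k`-th power -/
noncomputable def AA (R : MvPolynomial (Option Nat.Primes) ℂ) (k m : ℕ) : ℂ :=
  ∑ d ∈ R.support with d none = k, sg (nn d) (MvPolynomial.coeff d R * (nn d : ℕ)) m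

lemma hasSum_AA (R : MvPolynomial (Option Nat.Primes) ℂ) (k : ℕ) (s : ℂ) :
    LSeriesHasSum (AA R k) s
      (∑ d ∈ R.support with d none = k, MvPolynomial.coeff d R * ((nn d : ℕ) : ℂ) ^ (1 - s)) := by
  have h1 : AA R k = ∑ d ∈ R.support with d none = k,
      sg (nn d) (MvPolynomial.coeff d R * (nn d : ℕ)) := by
    funext m
    rw [Finset.sum_apply]
    rfl
  rw [h1]
  refine LSeriesHasSum.sum fun d _ => ?_
  have h2 := hasSum_sg (nn_ne d) (MvPolynomial.coeff d R * (nn d : ℕ)) s
  have h3 : ((nn d : ℕ) : ℂ) ^ (1 - s) = (nn d : ℕ) * ((nn d : ℕ) : ℂ) ^ (-s) := by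
    rw [sub_eq_add_neg, Complex.cpow_add _ _ (Nat.cast_ne_zero.2 (nn_ne d)), Complex.cpow_one]
  rwa [mul_assoc, ← h3] at h2

lemma AA_nn (R : MvPolynomial (Option Nat.Primes) ℂ) (d : Option Nat.Primes →₀ ℕ)
    (hd : d ∈ R.support) : AA R (d none) (nn d) = MvPolynomial.coeff d R * (nn d : ℕ) := by
  unfold AA
  rw [sum_eq_single d]
  · unfold sg
    rw [if_pos rfl]
  · intro d' hd' hne
    unfold sg
    rw [if_neg]
    intro h
    exact hne (nn_inj (mem_filter.1 hd').2 h.symm)
  · intro h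
    exact absurd (mem_filter.2 ⟨hd, rfl⟩ : d ∈ R.support.filter fun d' => d' none = d none) h

lemma AA_large {R : MvPolynomial (Option Nat.Primes) ℂ} {Q : ℕ} (hQ : ∀ d ∈ R.support, nn d ≤ Q)
    (k : ℕ) {n : ℕ} (hn : Q < n) : AA R k n = 0 := by
  unfold AA
  refine sum_eq_zero fun d hd => ?_
  unfold sg
  rw [if_neg]
  rintro rfl
  have := hQ d (mem_filter.1 hd).1
  omega

lemma aeval_eq {R : MvPolynomial (Option Nat.Primes) ℂ} {K : ℕ} (hK : ∀ d ∈ R.support, d none < K)
    (s : ℂ) : MvPolynomial.aeval (xs s) R =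
      ∑ k ∈ range K, (-Complex.I * (s - 1)) ^ k *
        ∑ d ∈ R.support with d none = k, MvPolynomial.coeff d R * ((nn d : ℕ) : ℂ) ^ (1 - s) := by
  rw [MvPolynomial.aeval_def, MvPolynomial.eval₂_eq]
  have h1 : ∀ d ∈ R.support, (algebraMap ℂ ℂ) (MvPolynomial.coeff d R) *
      ∏ i ∈ d.support, xs s i ^ d i =
      (-Complex.I * (s - 1)) ^ (d none) * (MvPolynomial.coeff d R * ((nn d : ℕ) : ℂ) ^ (1 - s)) := by
    intro d _
    have h2 := xs_prod s d
    unfold Finsupp.prod at h2
    rw [h2]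
    change MvPolynomial.coeff d R * _ = _
    ring
  rw [sum_congr rfl h1, ← sum_fiberwise_of_maps_to (t := range K) (g := fun d => d none)
    (fun d hd => mem_range.2 (hK d hd))]
  refine sum_congr rfl fun k _ => ?_
  rw [mul_sum]
  refine sum_congr rfl fun d hd => ?_
  rw [(mem_filter.1 hd).2]

/-- **Linear independence.** -/
theorem li {ι : Type*} {b : ι → PP → ℂ} {M : ι → ℝ} {S : Finset ι}
    (hb : ∀ i ∈ S, ∀ x, ‖b i x‖ ≤ M i / (x.2 + 1 : ℕ))
    (hne : ∀ i ∈ S, ∀ j ∈ S, i ≠ j →
      {p : Nat.Primes | ∃ k : ℕ, b i (p, k) ≠ b j (p, k)}.Infinite)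
    {R : ι → MvPolynomial (Option Nat.Primes) ℂ}
    (h : ∀ s : ℂ, 1 < s.re →
      ∑ i ∈ S, MvPolynomial.aeval (xs s) (R i) * Complex.exp (FF (b i) s) = 0) :
    ∀ i ∈ S, R i = 0 := by
  classical
  obtain ⟨K, hK⟩ : ∃ K : ℕ, ∀ i ∈ S, ∀ d ∈ (R i).support, d none < K := by
    refine ⟨(S.sup fun i => (R i).support.sup fun d => d none) + 1, fun i hi d hd => ?_⟩
    have h1 := le_sup (f := fun d : Option Nat.Primes →₀ ℕ => d none) hd
    have h2 := le_sup (f := fun i => (R i).support.sup fun d => d none) hi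
    exact Nat.lt_succ_of_le (h1.trans h2)
  obtain ⟨Q, hQ⟩ : ∃ Q : ℕ, ∀ i ∈ S, ∀ d ∈ (R i).support, nn d ≤ Q := by
    refine ⟨S.sup fun i => (R i).support.sup nn, fun i hi d hd => ?_⟩
    have h1 := le_sup (f := nn) hd
    have h2 := le_sup (f := fun i => (R i).support.sup nn) hi
    exact h1.trans h2
  set G : ℕ → ℕ → ℂ := fun k => ∑ i ∈ S, LSeries.convolution (AA (R i) k) (fc (b i)) with hG
  have hGs : ∀ k, ∀ s : ℂ, 1 < s.re → LSeriesHasSum (G k) s (∑ i ∈ S,
      (∑ d ∈ (R i).support with d none = k, MvPolynomial.coeff d (R i) *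
        ((nn d : ℕ) : ℂ) ^ (1 - s)) * Complex.exp (FF (b i) s)) := by
    intro k s hs
    exact LSeriesHasSum.sum fun i hi => (hasSum_AA (R i) k s).convolution (hasSum_fc (hb i hi) hs)
  have hG0 : ∀ n, n ≠ 0 → ∀ k < K, G k n = 0 := by
    refine elim_pow (u := fun x : ℝ => -Complex.I * ((x : ℂ) - 1))
      (fun k _ s hs => (hGs k s hs).LSeriesSummable) (fun x hx => ?_) ?_ (fun x hx => ?_)
    · rw [norm_mul, norm_neg, Complex.norm_I, one_mul, ← Complex.ofReal_one, ← Complex.ofReal_sub,
        Complex.norm_real, Real.norm_of_nonneg (by linarith)]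
      linarith
    · have h1 : (fun x : ℝ => ‖-Complex.I * ((x : ℂ) - 1)‖) = fun x : ℝ => |x - 1| := by
        funext x
        rw [norm_mul, norm_neg, Complex.norm_I, one_mul, ← Complex.ofReal_one,
          ← Complex.ofReal_sub, Complex.norm_real, Real.norm_eq_abs]
      rw [h1]
      exact tendsto_abs_atTop_atTop.comp (tendsto_atTop_add_const_right _ (-1) tendsto_id)
    · have hx' : 1 < (x : ℂ).re := by simpa using hx
      rw [← h x hx']
      have h2 : ∀ k ∈ range K, (-Complex.I * ((x : ℂ) - 1)) ^ k * LSeries (G k) x =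
          ∑ i ∈ S, (-Complex.I * ((x : ℂ) - 1)) ^ k *
            ((∑ d ∈ (R i).support with d none = k, MvPolynomial.coeff d (R i) *
              ((nn d : ℕ) : ℂ) ^ (1 - (x : ℂ))) * Complex.exp (FF (b i) x)) := by
        intro k _
        rw [(hGs k x hx').LSeries_eq, mul_sum]
      rw [sum_congr rfl h2, sum_comm]
      refine sum_congr rfl fun i hi => ?_
      rw [aeval_eq (hK i hi), sum_mul]
      refine sum_congr rfl fun k _ => ?_
      ring
  intro i hi
  rw [← MvPolynomial.support_eq_empty, eq_empty_iff_forall_notMem]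
  intro d hd
  have h1 := lin Q S.card S rfl (fun i => fc (b i)) (fun i => AA (R i) (d none))
    (fun j hj => ⟨fc_one _, fun p n k hn => fc_mul p (hb j hj) hn k⟩)
    (fun j hj l hl hjl => by
      refine (hne j hj l hl hjl).mono ?_
      rintro p ⟨k, hk⟩
      by_contra hcon
      simp only [Set.mem_ofPred_eq, not_exists, not_not] at hcon
      exact hk (fc_inj p (hb j hj) (hb l hl) hcon k))
    (fun j hj n hn => AA_large (hQ j hj) _ hn) 1 one_ne_zero
    (fun n hn _ => by
      have h2 := hG0 n hn (d none) (hK i hi d hd)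
      simp only [hG] at h2
      rw [Finset.sum_apply] at h2
      rw [← h2]
      refine sum_congr rfl fun j _ => ?_
      rw [convolution_def])
    i hi (nn d) (nn_ne d) (Nat.coprime_one_right _)
  rw [AA_nn (R i) d hd] at h1
  rcases mul_eq_zero.1 h1 with h2 | h2
  · exact MvPolynomial.mem_support_iff.1 hd h2
  · exact nn_ne d (by exact_mod_cast h2)

end Pool.Agent.R409.EV
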