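import Mathlib.NumberTheory.LSeries.Convolution
import Mathlib.Topology.Algebra.Polynomial

/-!
# Linear independence of multiplicative functions over Dirichlet polynomials
-/

set_option autoImplicit false

namespace Pool.Agent.R409.EV

open Finset Filter Topology

/-- Functions with `f 1 = 1` and `f (n p^k) = f n f (p^k)` for primes `p` not dividing `n`. -/
structure Mul1 (f : ℕ → ℂ) : Prop where
  one : f 1 = 1
  mul : ∀ (p : Nat.Primes) (n : ℕ) (k : ℕ), ¬ (p : ℕ) ∣ n →
    f (n * (p : ℕ) ^ k) = f n * f ((p : ℕ) ^ k)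

lemma conv_sep {Q : ℕ} {a f : ℕ → ℂ} (hf : Mul1 f) (ha : ∀ n, Q < n → a n = 0) {p : Nat.Primes}
    (hp : Q < (p : ℕ)) {n : ℕ} (hn0 : n ≠ 0) (hn : ¬ (p : ℕ) ∣ n) (k : ℕ) :
    ∑ x ∈ (n * (p : ℕ) ^ k).divisorsAntidiagonal, a x.1 * f x.2 =
      f ((p : ℕ) ^ k) * ∑ x ∈ n.divisorsAntidiagonal, a x.1 * f x.2 := by
  have hpk : (p : ℕ) ^ k ≠ 0 := pow_ne_zero _ p.2.ne_zero
  set φ : ℕ × ℕ → ℕ × ℕ := fun x => (x.1, x.2 * (p : ℕ) ^ k) with hφ
  have hinj : Function.Injective φ := by
    rintro ⟨d, e⟩ ⟨d', e'⟩ h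
    simp only [hφ, Prod.mk.injEq] at h
    rw [h.1, Nat.eq_of_mul_eq_mul_right (Nat.pos_of_ne_zero hpk) h.2]
  have hsub : (n.divisorsAntidiagonal).image φ ⊆ (n * (p : ℕ) ^ k).divisorsAntidiagonal := by
    intro y hy
    rw [mem_image] at hy
    obtain ⟨x, hx, rfl⟩ := hy
    rw [Nat.mem_divisorsAntidiagonal] at hx ⊢
    refine ⟨?_, mul_ne_zero hn0 hpk⟩
    simp only [hφ]
    rw [← mul_assoc, hx.1]
  rw [← sum_subset hsub, sum_image hinj.injOn, mul_sum]
  · refine sum_congr rfl fun x hx => ?_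
    rw [Nat.mem_divisorsAntidiagonal] at hx
    simp only [hφ]
    have hx2 : ¬ (p : ℕ) ∣ x.2 := fun h => hn (h.trans (Dvd.intro_left _ hx.1))
    rw [hf.mul p x.2 k hx2]
    ring
  · intro y hy hy2
    rw [Nat.mem_divisorsAntidiagonal] at hy
    by_cases hQ : Q < y.1
    · rw [ha _ hQ, zero_mul]
    · exfalso
      apply hy2
      have hy0 : y.1 ≠ 0 := by
        intro h
        rw [h, zero_mul] at hy
        exact hy.2 hy.1.symm
      have hpy : ¬ (p : ℕ) ∣ y.1 := fun h => by
        have := Nat.le_of_dvd (Nat.pos_of_ne_zero hy0) h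
        omega
      have hcop : Nat.Coprime y.1 ((p : ℕ) ^ k) :=
        (Nat.Coprime.pow_left k ((Nat.Prime.coprime_iff_not_dvd p.2).2 hpy)).symm
      have hdvd : y.1 ∣ n := hcop.dvd_of_dvd_mul_right (Dvd.intro _ hy.1)
      obtain ⟨e, he⟩ := hdvd
      rw [mem_image]
      refine ⟨(y.1, e), Nat.mem_divisorsAntidiagonal.2 ⟨he.symm, hn0⟩, ?_⟩
      simp only [hφ]
      refine Prod.ext rfl ?_
      simp only
      have h2 := hy.1
      rw [he, mul_assoc] at h2
      exact (Nat.eq_of_mul_eq_mul_left (Nat.pos_of_ne_zero hy0) h2).symm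

/-- **Linear independence** of inequivalent multiplicative functions over Dirichlet polynomials. -/
theorem lin {ι : Type*} (Q : ℕ) : ∀ (m : ℕ) (S : Finset ι), S.card = m → ∀ (f a : ι → ℕ → ℂ),
    (∀ i ∈ S, Mul1 (f i)) →
    (∀ i ∈ S, ∀ j ∈ S, i ≠ j →
      {p : Nat.Primes | ∃ k : ℕ, f i ((p : ℕ) ^ k) ≠ f j ((p : ℕ) ^ k)}.Infinite) →
    (∀ i ∈ S, ∀ n, Q < n → a i n = 0) → ∀ N₀ : ℕ, N₀ ≠ 0 →
    (∀ n, n ≠ 0 → n.Coprime N₀ →
      ∑ i ∈ S, ∑ x ∈ n.divisorsAntidiagonal, a i x.1 * f i x.2 = 0) →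
    ∀ i ∈ S, ∀ n, n ≠ 0 → n.Coprime N₀ → a i n = 0 := by
  classical
  intro m
  induction m with
  | zero =>
    intro S hS f a _ _ _ N₀ _ _ i hi
    rw [card_eq_zero] at hS
    rw [hS] at hi
    exact absurd hi (notMem_empty i)
  | succ m ih =>
    intro S hS f a hf hne ha N₀ hN₀ h i hi
    by_cases hone : ∃ j ∈ S, j ≠ i
    · obtain ⟨j, hj, hji⟩ := hone
      have hinf := hne i hi j hj hji.symm
      obtain ⟨p, hp, hpQ⟩ : ∃ p ∈ {p : Nat.Primes | ∃ k : ℕ, f i ((p : ℕ) ^ k) ≠ f j ((p : ℕ) ^ k)},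
          max Q N₀ < (p : ℕ) := by
        by_contra hcon
        push Not at hcon
        refine hinf (Set.Finite.subset (s := {p : Nat.Primes | (p : ℕ) ≤ max Q N₀}) ?_
          fun p hp => hcon p hp)
        refine Set.Finite.of_finite_image (f := fun p : Nat.Primes => (p : ℕ)) ?_
          (Subtype.val_injective.injOn)
        refine Set.Finite.subset (Set.finite_Iic (max Q N₀)) ?_
        rintro _ ⟨p, hp, rfl⟩
        exact hp
      obtain ⟨k, hk⟩ := hp
      have hpQ' : Q < (p : ℕ) := lt_of_le_of_lt (le_max_left _ _) hpQ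
      have hpN : ¬ (p : ℕ) ∣ N₀ := fun hd => by
        have := Nat.le_of_dvd (Nat.pos_of_ne_zero hN₀) hd
        have := le_max_right Q N₀
        omega
      have hcard : (S.erase j).card = m := by
        rw [card_erase_of_mem hj, hS]
        rfl
      have key := ih (S.erase j) hcard f
        (fun l n => (f l ((p : ℕ) ^ k) - f j ((p : ℕ) ^ k)) * a l n)
        (fun l hl => hf l (mem_of_mem_erase hl))
        (fun l hl l' hl' => hne l (mem_of_mem_erase hl) l' (mem_of_mem_erase hl'))
        (fun l hl n hn => by rw [ha l (mem_of_mem_erase hl) n hn, mul_zero])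
        (N₀ * p) (mul_ne_zero hN₀ p.2.ne_zero) (fun n hn hcop => by
          rw [Nat.coprime_mul_iff_right] at hcop
          have hpn : ¬ (p : ℕ) ∣ n := (Nat.Prime.coprime_iff_not_dvd p.2).1 hcop.2.symm
          have hcop2 : (n * (p : ℕ) ^ k).Coprime N₀ := by
            refine Nat.Coprime.mul_left hcop.1 (Nat.Coprime.pow_left k ?_)
            exact (Nat.Prime.coprime_iff_not_dvd p.2).2 hpN
          have h1 := h n hn hcop.1
          have h2 := h (n * (p : ℕ) ^ k) (mul_ne_zero hn (pow_ne_zero _ p.2.ne_zero)) hcop2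
          have h3 : ∑ l ∈ S, (f l ((p : ℕ) ^ k) - f j ((p : ℕ) ^ k)) *
              ∑ x ∈ n.divisorsAntidiagonal, a l x.1 * f l x.2 = 0 := by
            have h4 : ∑ l ∈ S, f l ((p : ℕ) ^ k) *
                ∑ x ∈ n.divisorsAntidiagonal, a l x.1 * f l x.2 = 0 := by
              rw [← h2]
              refine sum_congr rfl fun l hl => ?_
              exact (conv_sep (hf l hl) (ha l hl) hpQ' hn hpn k).symm
            have h5 : ∑ l ∈ S, f j ((p : ℕ) ^ k) *
                ∑ x ∈ n.divisorsAntidiagonal, a l x.1 * f l x.2 = 0 := by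
              rw [← mul_sum, h1, mul_zero]
            simp_rw [sub_mul]
            rw [sum_sub_distrib, h4, h5, sub_zero]
          rw [← add_sum_erase _ _ hj, sub_self, zero_mul, zero_add] at h3
          rw [← h3]
          refine sum_congr rfl fun l _ => ?_
          rw [mul_sum]
          refine sum_congr rfl fun x _ => ?_
          ring)
      intro n hn hcop
      by_cases hQ : Q < n
      · exact ha i hi n hQ
      · have hpn : ¬ (p : ℕ) ∣ n := fun hd => by
          have := Nat.le_of_dvd (Nat.pos_of_ne_zero hn) hd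
          omega
        have h1 := key i (mem_erase.2 ⟨hji.symm, hi⟩) n hn (by
          rw [Nat.coprime_mul_iff_right]
          exact ⟨hcop, ((Nat.Prime.coprime_iff_not_dvd p.2).2 hpn).symm⟩)
        exact (mul_eq_zero.1 h1).resolve_left (sub_ne_zero.2 hk)
    · push Not at hone
      have hSi : S = {i} := by
        ext j
        rw [mem_singleton]
        exact ⟨fun hj => hone j hj, fun hj => hj ▸ hi⟩
      intro n
      induction n using Nat.strong_induction_on with
      | _ n ihn =>
        intro hn hcop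
        have h1 := h n hn hcop
        rw [hSi, sum_singleton, sum_eq_single (n, 1)] at h1
        · simp only at h1
          rwa [(hf i hi).one, mul_one] at h1
        · rintro ⟨d, e⟩ hde hne'
          rw [Nat.mem_divisorsAntidiagonal] at hde
          simp only at hde ⊢
          have hd0 : d ≠ 0 := by
            rintro rfl
            rw [zero_mul] at hde
            exact hde.2 hde.1.symm
          have hdn : d ∣ n := Dvd.intro _ hde.1
          have hlt : d < n := by
            refine lt_of_le_of_ne (Nat.le_of_dvd (Nat.pos_of_ne_zero hn) hdn) ?_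
            rintro rfl
            apply hne'
            have : e = 1 := Nat.eq_of_mul_eq_mul_left (Nat.pos_of_ne_zero hd0)
              (hde.1.trans (mul_one d).symm)
            rw [this]
          rw [ihn d hlt hd0 (Nat.Coprime.coprime_dvd_left hdn hcop), zero_mul]
        · intro hcon
          exact absurd (Nat.mem_divisorsAntidiagonal.2 ⟨mul_one n, hn⟩) hcon

end Pool.Agent.R409.EV
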