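import Pool.Agent.TH339.MP.U3

/-!
# Mean oscillation of the boundary function
-/

set_option autoImplicit false

namespace Pool.Agent.R409.EV

open Complex MeasureTheory Filter Topology
open Pool.Agent.TH339.MP (PP FF bl ap M_nonneg edge_upper boundary)
open scoped ENNReal

/-- the sum of the four exponentials -/
noncomputable def four (r : ℝ) (z : ℂ) : ℝ :=
  ‖Complex.exp ((r : ℂ) * z)‖ + ‖Complex.exp (-(r : ℂ) * z)‖ + ‖Complex.exp ((r : ℂ) * I * z)‖ +
    ‖Complex.exp (-(r : ℂ) * I * z)‖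

lemma four_eq (r : ℝ) (z : ℂ) : four r z =
    Real.exp (r * z.re) + Real.exp (-(r * z.re)) + Real.exp (-(r * z.im)) +
      Real.exp (r * z.im) := by
  unfold four
  rw [Complex.norm_exp, Complex.norm_exp, Complex.norm_exp, Complex.norm_exp]
  congr 4 <;> simp

lemma exp_abs_le (x : ℝ) : Real.exp |x| ≤ Real.exp x + Real.exp (-x) := by
  rcases abs_cases x with ⟨h, _⟩ | ⟨h, _⟩
  · rw [h]
    linarith [Real.exp_pos (-x)]
  · rw [h]
    linarith [Real.exp_pos x]

lemma four_ge {r : ℝ} (hr : 0 < r) (z : ℂ) :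
    Real.exp (r * |z.re|) + Real.exp (r * |z.im|) ≤ four r z := by
  rw [four_eq]
  have h1 := exp_abs_le (r * z.re)
  have h2 := exp_abs_le (r * z.im)
  rw [abs_mul, abs_of_pos hr] at h1 h2
  linarith

lemma norm_le_four {r : ℝ} (hr : 0 < r) (z : ℂ) : ‖z‖ ≤ (1 / r) * four r z := by
  have h1 := four_ge hr z
  have h2 := Complex.norm_le_abs_re_add_abs_im z
  have h3 : r * |z.re| ≤ Real.exp (r * |z.re|) := (by linarith [Real.add_one_le_exp (r * |z.re|)])
  have h4 : r * |z.im| ≤ Real.exp (r * |z.im|) := (by linarith [Real.add_one_le_exp (r * |z.im|)])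
  rw [one_div, inv_mul_eq_div, le_div_iff₀ hr]
  nlinarith

lemma exp_le_four {r y : ℝ} (hr : 0 < r) {z : ℂ} (hy : y ≤ ‖z‖) :
    Real.exp (r * (y / 2)) ≤ four r z := by
  have h1 := four_ge hr z
  have h2 := Complex.norm_le_abs_re_add_abs_im z
  have h3 : y / 2 ≤ |z.re| ∨ y / 2 ≤ |z.im| := by
    by_contra hcon
    push Not at hcon
    linarith [hcon.1, hcon.2]
  rcases h3 with h3 | h3
  · have h4 : Real.exp (r * (y / 2)) ≤ Real.exp (r * |z.re|) :=
      Real.exp_le_exp.2 (mul_le_mul_of_nonneg_left h3 hr.le)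
    linarith [Real.exp_pos (r * |z.im|)]
  · have h4 : Real.exp (r * (y / 2)) ≤ Real.exp (r * |z.im|) :=
      Real.exp_le_exp.2 (mul_le_mul_of_nonneg_left h3 hr.le)
    linarith [Real.exp_pos (r * |z.re|)]

section
variable {b : PP → ℂ} {M : ℝ}

lemma four_lint (hb : ∀ x, ‖b x‖ ≤ M / (x.2 + 1 : ℕ)) (hM : 0 < M) {h : ℝ} (hh : 0 < h)
    (hh2 : h ≤ 1 / 2) (t : ℝ) :
    ∫⁻ u in Set.Icc (t - h / 2) (t + h / 2), ENNReal.ofReal (four (1 / (2 * M))
      (bl b u - FF b (((1 + h : ℝ) : ℂ) + t * I))) ≤ ENNReal.ofReal (8000 * h) := by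
  set w : ℂ := FF b (((1 + h : ℝ) : ℂ) + t * I) with hw
  set r : ℝ := 1 / (2 * M) with hr
  have hr0 : 0 < r := by positivity
  have hrM : r * M = 1 / 2 := by
    rw [hr]
    field_simp
  have hmeas : AEMeasurable (bl b) := (boundary hb).1
  have hm : ∀ z : ℂ, AEMeasurable (fun u => ENNReal.ofReal ‖Complex.exp (z * (bl b u - w))‖)
      (volume.restrict (Set.Icc (t - h / 2) (t + h / 2))) := by
    intro z
    have h1 : AEMeasurable (fun u => z * (bl b u - w)) := (hmeas.sub_const w).const_mul z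
    exact ((Complex.measurable_exp.comp_aemeasurable h1).norm).ennreal_ofReal.restrict
  have hone : ∀ c : ℂ, ‖c‖ = r → ∫⁻ u in Set.Icc (t - h / 2) (t + h / 2),
      ENNReal.ofReal ‖Complex.exp (c * (bl b u - w))‖ ≤ ENNReal.ofReal (2000 * h) := by
    intro c hc
    have h1 := edge_upper hb hh hh2 t c (by rw [hc, hrM]; norm_num)
    rw [hc, hrM] at h1
    refine h1.trans (ENNReal.ofReal_le_ofReal ?_)
    norm_num
    linarith
  have hI : ‖(I : ℂ)‖ = 1 := Complex.norm_I
  have h1 := hone (r : ℂ) (by rw [Complex.norm_real, Real.norm_of_nonneg hr0.le])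
  have h2 := hone (-(r : ℂ)) (by rw [norm_neg, Complex.norm_real, Real.norm_of_nonneg hr0.le])
  have h3 := hone ((r : ℂ) * I) (by
    rw [norm_mul, hI, mul_one, Complex.norm_real, Real.norm_of_nonneg hr0.le])
  have h4 := hone (-(r : ℂ) * I) (by
    rw [norm_mul, hI, mul_one, norm_neg, Complex.norm_real, Real.norm_of_nonneg hr0.le])
  calc ∫⁻ u in Set.Icc (t - h / 2) (t + h / 2), ENNReal.ofReal (four r (bl b u - w))
      = ∫⁻ u in Set.Icc (t - h / 2) (t + h / 2),
          (ENNReal.ofReal ‖Complex.exp ((r : ℂ) * (bl b u - w))‖ +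
            ENNReal.ofReal ‖Complex.exp (-(r : ℂ) * (bl b u - w))‖ +
            ENNReal.ofReal ‖Complex.exp ((r : ℂ) * I * (bl b u - w))‖ +
            ENNReal.ofReal ‖Complex.exp (-(r : ℂ) * I * (bl b u - w))‖) := by
        refine lintegral_congr fun u => ?_
        unfold four
        rw [ENNReal.ofReal_add (by positivity) (norm_nonneg _),
          ENNReal.ofReal_add (by positivity) (norm_nonneg _),
          ENNReal.ofReal_add (norm_nonneg _) (norm_nonneg _)]
    _ = (∫⁻ u in Set.Icc (t - h / 2) (t + h / 2),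
          ENNReal.ofReal ‖Complex.exp ((r : ℂ) * (bl b u - w))‖) +
        (∫⁻ u in Set.Icc (t - h / 2) (t + h / 2),
          ENNReal.ofReal ‖Complex.exp (-(r : ℂ) * (bl b u - w))‖) +
        (∫⁻ u in Set.Icc (t - h / 2) (t + h / 2),
          ENNReal.ofReal ‖Complex.exp ((r : ℂ) * I * (bl b u - w))‖) +
        ∫⁻ u in Set.Icc (t - h / 2) (t + h / 2),
          ENNReal.ofReal ‖Complex.exp (-(r : ℂ) * I * (bl b u - w))‖ := by
        rw [lintegral_add_right' _ (hm _), lintegral_add_right' _ (hm _),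
          lintegral_add_right' _ (hm _)]
    _ ≤ ENNReal.ofReal (2000 * h) + ENNReal.ofReal (2000 * h) + ENNReal.ofReal (2000 * h) +
        ENNReal.ofReal (2000 * h) := add_le_add (add_le_add (add_le_add h1 h2) h3) h4
    _ = ENNReal.ofReal (8000 * h) := by
        rw [← ENNReal.ofReal_add (by positivity) (by positivity),
          ← ENNReal.ofReal_add (by positivity) (by positivity),
          ← ENNReal.ofReal_add (by positivity) (by positivity)]
        congr 1
        ring

/-- **Mean oscillation.** -/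
theorem osc_le (hb : ∀ x, ‖b x‖ ≤ M / (x.2 + 1 : ℕ)) (hM : 0 < M) {h : ℝ} (hh : 0 < h)
    (hh2 : h ≤ 1 / 2) (t : ℝ) :
    IntegrableOn (fun u => bl b u - FF b (((1 + h : ℝ) : ℂ) + t * I))
      (Set.Icc (t - h / 2) (t + h / 2)) ∧
    ∫ u in (t - h / 2)..(t + h / 2), ‖bl b u - FF b (((1 + h : ℝ) : ℂ) + t * I)‖ ≤
      16000 * M * h := by
  have h0 := four_lint hb hM hh hh2 t
  set w : ℂ := FF b (((1 + h : ℝ) : ℂ) + t * I) with hw
  set r : ℝ := 1 / (2 * M) with hr
  have hr0 : 0 < r := by positivity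
  have hmeas : AEMeasurable (bl b) := (boundary hb).1
  have h1 : ∫⁻ u in Set.Icc (t - h / 2) (t + h / 2), ENNReal.ofReal ‖bl b u - w‖ ≤
      ENNReal.ofReal (16000 * M * h) := by
    calc ∫⁻ u in Set.Icc (t - h / 2) (t + h / 2), ENNReal.ofReal ‖bl b u - w‖
        ≤ ∫⁻ u in Set.Icc (t - h / 2) (t + h / 2), ENNReal.ofReal (1 / r) *
            ENNReal.ofReal (four r (bl b u - w)) := by
          refine lintegral_mono fun u => ?_
          rw [← ENNReal.ofReal_mul (by positivity)]
          exact ENNReal.ofReal_le_ofReal (norm_le_four hr0 _)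
      _ = ENNReal.ofReal (1 / r) * ∫⁻ u in Set.Icc (t - h / 2) (t + h / 2),
            ENNReal.ofReal (four r (bl b u - w)) :=
          lintegral_const_mul' _ _ ENNReal.ofReal_ne_top
      _ ≤ ENNReal.ofReal (1 / r) * ENNReal.ofReal (8000 * h) := by gcongr
      _ = ENNReal.ofReal (16000 * M * h) := by
          rw [← ENNReal.ofReal_mul (by positivity)]
          congr 1
          rw [hr, one_div_one_div]
          ring
  have hint : IntegrableOn (fun u => bl b u - w) (Set.Icc (t - h / 2) (t + h / 2)) := by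
    refine ⟨((hmeas.sub_const w).aestronglyMeasurable).restrict, ?_⟩
    rw [hasFiniteIntegral_iff_norm]
    exact lt_of_le_of_lt h1 ENNReal.ofReal_lt_top
  refine ⟨hint, ?_⟩
  rw [intervalIntegral.integral_of_le (by linarith), ← integral_Icc_eq_integral_Ioc]
  have h2 := ofReal_integral_eq_lintegral_ofReal hint.norm
    (Eventually.of_forall fun u => norm_nonneg _)
  rw [← h2] at h1
  exact (ENNReal.ofReal_le_ofReal_iff (by positivity)).1 h1

/-- **Exponential decay of the distribution.** -/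
theorem tail_le (hb : ∀ x, ‖b x‖ ≤ M / (x.2 + 1 : ℕ)) (hM : 0 < M) {h : ℝ} (hh : 0 < h)
    (hh2 : h ≤ 1 / 2) (t y : ℝ) :
    volume {u ∈ Set.Icc (t - h / 2) (t + h / 2) |
      y ≤ ‖bl b u - FF b (((1 + h : ℝ) : ℂ) + t * I)‖} ≤
        ENNReal.ofReal (8000 * h * Real.exp (-y / (4 * M))) := by
  have h0 := four_lint hb hM hh hh2 t
  set w : ℂ := FF b (((1 + h : ℝ) : ℂ) + t * I) with hw
  set r : ℝ := 1 / (2 * M) with hr
  have hr0 : 0 < r := by positivity
  have hmeas : AEMeasurable (bl b) := (boundary hb).1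
  have hm : AEMeasurable (fun u => ENNReal.ofReal (four r (bl b u - w)))
      (volume.restrict (Set.Icc (t - h / 2) (t + h / 2))) := by
    have h1 : ∀ z : ℂ, AEMeasurable (fun u => ‖Complex.exp (z * (bl b u - w))‖)
      (volume.restrict (Set.Icc (t - h / 2) (t + h / 2))) := by
      intro z
      have h1 : AEMeasurable (fun u => z * (bl b u - w)) := (hmeas.sub_const w).const_mul z
      exact ((Complex.measurable_exp.comp_aemeasurable h1).norm).restrict
    unfold four
    exact ((((h1 _).add (h1 _)).add (h1 _)).add (h1 _)).ennreal_ofReal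
  have h1 := mul_meas_ge_le_lintegral₀ hm (ENNReal.ofReal (Real.exp (r * (y / 2))))
  have h2 : volume {u ∈ Set.Icc (t - h / 2) (t + h / 2) | y ≤ ‖bl b u - w‖} ≤
      volume.restrict (Set.Icc (t - h / 2) (t + h / 2))
        {u | ENNReal.ofReal (Real.exp (r * (y / 2))) ≤ ENNReal.ofReal (four r (bl b u - w))} := by
    rw [Measure.restrict_apply' measurableSet_Icc]
    refine measure_mono ?_
    rintro u ⟨hu, hy⟩
    exact ⟨ENNReal.ofReal_le_ofReal (exp_le_four hr0 hy), hu⟩
  have hE : 0 < Real.exp (r * (y / 2)) := Real.exp_pos _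
  have h3 : volume {u ∈ Set.Icc (t - h / 2) (t + h / 2) | y ≤ ‖bl b u - w‖} ≤
      ENNReal.ofReal (8000 * h) / ENNReal.ofReal (Real.exp (r * (y / 2))) := by
    rw [ENNReal.le_div_iff_mul_le (Or.inl (by positivity)) (Or.inl ENNReal.ofReal_ne_top),
      mul_comm]
    exact (mul_le_mul_right h2 _).trans (h1.trans h0)
  refine h3.trans (le_of_eq ?_)
  rw [← ENNReal.ofReal_div_of_pos hE]
  congr 1
  rw [div_eq_mul_inv, ← Real.exp_neg]
  congr 2
  rw [hr]
  field_simp
  ring

end

end Pool.Agent.R409.EV
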